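import Mathlib

/-! # The number of nondegenerate zeros of a system of polynomial equations: independence -/

set_option autoImplicit false

namespace Pool.Agent.V7H22.AK

open Finset MvPolynomial

variable {K : Type*} [Field K] {ι κ : Type*} [Fintype ι] [Fintype κ]

/-- restriction of a polynomial to a line -/
noncomputable def line (z w : ι → K) : MvPolynomial ι K →ₐ[K] Polynomial K :=
  aeval fun j => Polynomial.C (z j) + Polynomial.X * Polynomial.C (w j)

theorem line_zero (z w : ι → K) (P : MvPolynomial ι K) : (line z w P).coeff 0 = eval z P := by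
  induction P using MvPolynomial.induction_on with
  | C a =>
    simp [line]
  | add P Q hP hQ =>
    rw [map_add, Polynomial.coeff_add, hP, hQ, map_add]
  | mul_X P j hP =>
    rw [map_mul, Polynomial.mul_coeff_zero, hP, map_mul]
    congr 1
    simp [line]

theorem line_one [DecidableEq ι] (z w : ι → K) (P : MvPolynomial ι K) :
    (line z w P).coeff 1 = ∑ j, eval z (pderiv j P) * w j := by
  induction P using MvPolynomial.induction_on with
  | C a =>
    simp [line, Polynomial.coeff_C]
  | add P Q hP hQ =>
    rw [map_add, Polynomial.coeff_add, hP, hQ, ← sum_add_distrib]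
    refine sum_congr rfl fun j _ => ?_
    rw [map_add, map_add, add_mul]
  | mul_X P i hP =>
    rw [map_mul, Polynomial.mul_coeff_one, hP, line_zero, line_zero]
    have h1 : (line z w (X i)).coeff 1 = w i := by
      simp [line, Polynomial.coeff_C]
    rw [h1, eval_X]
    have h2 : ∀ j, eval z (pderiv j (P * X i)) * w j =
        eval z (pderiv j P) * w j * z i + (if i = j then eval z P * w i else 0) := by
      intro j
      rw [pderiv_mul, map_add, map_mul, map_mul, eval_X, pderiv_X]
      by_cases hij : i = j
      · subst hij
        simp only [Pi.single_eq_same, map_one, if_true]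
        ring
      · rw [if_neg hij, Pi.single_eq_of_ne hij, map_zero]
        ring
    rw [sum_congr rfl fun j _ => h2 j, sum_add_distrib, ← sum_mul, sum_ite_eq]
    simp only [mem_univ, if_true]
    ring

/-- the quotient of a polynomial vanishing at `z` by the parameter of the line -/
theorem line_div (z w : ι → K) (P : MvPolynomial ι K) (hP : eval z P = 0) :
    line z w P = Polynomial.X * (line z w P).divX := by
  have h := Polynomial.X_mul_divX_add (line z w P)
  rw [line_zero, hP, Polynomial.C_0, add_zero] at h
  exact h.symm

/-- interpolation polynomials -/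
theorem lagrange (Z : Finset (ι → K)) : ∃ (P : (ι → K) → MvPolynomial ι K) (δ : ℕ),
    (∀ z ∈ Z, (P z).totalDegree ≤ δ) ∧ (∀ z ∈ Z, eval z (P z) = 1) ∧
      ∀ z ∈ Z, ∀ z' ∈ Z, z' ≠ z → eval z' (P z) = 0 := by
  classical
  rcases isEmpty_or_nonempty ι with hι | hι
  · refine ⟨fun _ => 1, 0, fun z _ => by simp, fun z _ => by simp, fun z _ z' _ hne => ?_⟩
    exact absurd (Subsingleton.elim z' z) hne
  have hex : ∀ z z' : ι → K, z' ≠ z → ∃ j, z' j ≠ z j := fun z z' h => Function.ne_iff.1 h
  choose! c hc using hex
  set P : (ι → K) → MvPolynomial ι K := fun z => ∏ z' ∈ Z.erase z,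
    (C ((z (c z z') - z' (c z z'))⁻¹) * (X (c z z') - C (z' (c z z')))) with hP
  refine ⟨P, Z.sup fun z => (P z).totalDegree, fun z hz => le_sup (f := fun z => (P z).totalDegree)
    hz, fun z _ => ?_, fun z _ z' hz' hne => ?_⟩
  · simp only [hP, map_prod, map_mul, map_sub, eval_C, eval_X]
    refine prod_eq_one fun z' hz' => ?_
    have h1 : z (c z z') - z' (c z z') ≠ 0 := sub_ne_zero.2 (hc z z' (ne_of_mem_erase hz')).symm
    exact inv_mul_cancel₀ h1
  · simp only [hP, map_prod, map_mul, map_sub, eval_C, eval_X]
    refine prod_eq_zero (mem_erase.2 ⟨hne, hz'⟩) ?_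
    rw [sub_self, mul_zero]

/-- the monomials in the equations times the interpolation polynomials are independent -/
theorem indep [Infinite K] (G : κ → MvPolynomial ι K) (Z : Finset (ι → K))
    (hG : ∀ z ∈ Z, ∀ i, eval z (G i) = 0)
    (hsurj : ∀ z ∈ Z, ∀ v : κ → K, ∃ w : ι → K, ∀ i, (line z w (G i)).coeff 1 = v i)
    (P : (ι → K) → MvPolynomial ι K) (hP1 : ∀ z ∈ Z, eval z (P z) = 1)
    (hP0 : ∀ z ∈ Z, ∀ z' ∈ Z, z' ≠ z → eval z' (P z) = 0) (B : Finset (κ →₀ ℕ)) :
    LinearIndependent K (fun t : {β // β ∈ B} × {z // z ∈ Z} =>
      (∏ i, G i ^ (t.1.1 i)) * P t.2.1) := by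
  classical
  rw [Fintype.linearIndependent_iff]
  intro c hc
  -- extension of the coefficients by zero
  have key : ∀ s : ℕ, ∀ (β : {β // β ∈ B}) (z : {z // z ∈ Z}), (∑ i, β.1 i) = s → c (β, z) = 0 := by
    intro s
    induction s using Nat.strong_induction_on with
    | _ s ih =>
      intro β0 z0 hβ0
      -- restriction to the lines through `z0`
      have h1 : ∀ w : ι → K, ∑ β : {β // β ∈ B}, (if (∑ i, β.1 i) = s then
          c (β, z0) * ∏ i, ((line z0.1 w (G i)).coeff 1) ^ (β.1 i) else 0) = 0 := by
        intro w
        have h2 := congrArg (fun Q => (line z0.1 w Q).coeff s) hc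
        simp only [map_sum, map_zero, Polynomial.coeff_zero, Polynomial.finsetSum_coeff,
          map_smul, Polynomial.coeff_smul, smul_eq_mul] at h2
        rw [Fintype.sum_prod_type] at h2
        refine Eq.trans (sum_congr rfl fun β _ => ?_) h2
        -- the power of the parameter
        have h3 : ∀ z : {z // z ∈ Z}, (line z0.1 w ((∏ i, G i ^ (β.1 i)) * P z.1)).coeff s =
            if (∑ i, β.1 i) ≤ s then (((∏ i, ((line z0.1 w (G i)).divX) ^ (β.1 i)) *
              line z0.1 w (P z.1)).coeff (s - ∑ i, β.1 i)) else 0 := by
          intro z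
          have h4 : line z0.1 w ((∏ i, G i ^ (β.1 i)) * P z.1) =
              Polynomial.X ^ (∑ i, β.1 i) * ((∏ i, ((line z0.1 w (G i)).divX) ^ (β.1 i)) *
                line z0.1 w (P z.1)) := by
            rw [map_mul, map_prod, ← mul_assoc]
            congr 1
            rw [← prod_pow_eq_pow_sum, ← prod_mul_distrib]
            refine prod_congr rfl fun i _ => ?_
            rw [map_pow, ← mul_pow, ← line_div z0.1 w (G i) (hG z0.1 z0.2 i)]
          rw [h4, Polynomial.coeff_X_pow_mul']
        by_cases hlt : (∑ i, β.1 i) < s
        · -- small degree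
          rw [if_neg hlt.ne]
          symm
          refine sum_eq_zero fun z _ => ?_
          rw [ih _ hlt β z rfl, zero_mul]
        · by_cases heq : (∑ i, β.1 i) = s
          · rw [if_pos heq]
            have h5 : ∀ z : {z // z ∈ Z}, c (β, z) *
                (line z0.1 w ((∏ i, G i ^ (β.1 i)) * P z.1)).coeff s =
                if z = z0 then c (β, z0) * ∏ i, ((line z0.1 w (G i)).coeff 1) ^ (β.1 i) else 0 := by
              intro z
              rw [h3, if_pos heq.le, heq, Nat.sub_self, Polynomial.mul_coeff_zero, line_zero]
              have h6 : (∏ i, ((line z0.1 w (G i)).divX) ^ (β.1 i)).coeff 0 =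
                  ∏ i, ((line z0.1 w (G i)).coeff 1) ^ (β.1 i) := by
                rw [← Polynomial.constantCoeff_apply, map_prod]
                refine prod_congr rfl fun i _ => ?_
                rw [map_pow, Polynomial.constantCoeff_apply, Polynomial.coeff_divX]
              rw [h6]
              by_cases hz : z = z0
              · rw [if_pos hz, hz, hP1 z0.1 z0.2, mul_one]
              · rw [if_neg hz, hP0 z.1 z.2 z0.1 z0.2 (fun h => hz (Subtype.ext h.symm)), mul_zero,
                  mul_zero]
            rw [sum_congr rfl fun z _ => h5 z, sum_ite_eq' univ z0]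
            simp
          · rw [if_neg heq]
            symm
            refine sum_eq_zero fun z _ => ?_
            rw [h3, if_neg (by omega), mul_zero]
      -- the form vanishes identically
      have h2 : ∀ v : κ → K, ∑ β : {β // β ∈ B}, (if (∑ i, β.1 i) = s then
          c (β, z0) * ∏ i, (v i) ^ (β.1 i) else 0) = 0 := by
        intro v
        obtain ⟨w, hw⟩ := hsurj z0.1 z0.2 v
        have h3 := h1 w
        simp only [hw] at h3
        exact h3
      set Q : MvPolynomial κ K := ∑ β : {β // β ∈ B}, monomial β.1
        (if (∑ i, β.1 i) = s then c (β, z0) else 0) with hQ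
      have h3 : Q = 0 := by
        apply MvPolynomial.funext
        intro v
        rw [map_zero, hQ, map_sum]
        refine Eq.trans (sum_congr rfl fun β _ => ?_) (h2 v)
        rw [eval_monomial, Finsupp.prod_fintype _ _ (fun i => pow_zero _)]
        split_ifs with h
        · rfl
        · rw [zero_mul]
      have h4 : coeff β0.1 Q = c (β0, z0) := by
        rw [hQ, coeff_sum]
        rw [sum_eq_single β0]
        · rw [coeff_monomial, if_pos rfl, if_pos hβ0]
        · intro β _ hne
          rw [coeff_monomial, if_neg (fun h => hne (Subtype.ext h))]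
        · intro h
          exact absurd (mem_univ _) h
      rw [← h4, h3, coeff_zero]
  intro t
  exact key _ t.1 t.2 rfl

end Pool.Agent.V7H22.AK
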