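import Mathlib
import Pool.Agent.V7H22.AK.Jet

/-! # The number of nondegenerate zeros of a system of polynomial equations -/

set_option autoImplicit false

namespace Pool.Agent.V7H22.AK

open Finset MvPolynomial

/-- exponents of degree at most `N` -/
def expo (ι : Type*) [Fintype ι] [DecidableEq ι] (N : ℕ) : Finset (ι →₀ ℕ) :=
  (range (N + 1)).biUnion fun a => finsuppAntidiag (univ : Finset ι) a

theorem mem_expo {ι : Type*} [Fintype ι] [DecidableEq ι] {N : ℕ} {β : ι →₀ ℕ} :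
    β ∈ expo ι N ↔ ∑ i, β i ≤ N := by
  unfold expo
  rw [mem_biUnion]
  constructor
  · rintro ⟨a, ha, hβ⟩
    rw [mem_finsuppAntidiag] at hβ
    rw [mem_range] at ha
    rw [hβ.1]
    omega
  · intro h
    refine ⟨∑ i, β i, mem_range.2 (by omega), ?_⟩
    rw [mem_finsuppAntidiag]
    exact ⟨rfl, subset_univ _⟩

theorem card_expo {ι : Type*} [Fintype ι] [DecidableEq ι] {k : ℕ} (hk : Fintype.card ι = k + 1)
    (N : ℕ) : (expo ι N).card = (N + k + 1).choose (k + 1) := by
  unfold expo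
  rw [card_biUnion]
  · rw [← Nat.sum_range_add_choose]
    refine sum_congr rfl fun a _ => ?_
    rw [card_finsuppAntidiag_nat_eq_choose, card_univ, hk]
    rw [show k + 1 + a - 1 = a + k by omega]
    rw [← Nat.choose_symm (by omega : a ≤ a + k), Nat.add_sub_cancel_left]
  · intro a _ b _ hab
    rw [Function.onFun, disjoint_left]
    intro β h1 h2
    rw [mem_finsuppAntidiag] at h1 h2
    exact hab (h1.1.symm.trans h2.1)

/-- the dimension count -/
theorem dim_count {K : Type*} [Field K] {ι τ : Type*} [Fintype ι] [DecidableEq ι] [Fintype τ]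
    (v : τ → MvPolynomial ι K) (hv : LinearIndependent K v) (N : ℕ)
    (hN : ∀ t, (v t).totalDegree ≤ N) : Fintype.card τ ≤ (expo ι N).card := by
  classical
  set W : Finset (MvPolynomial ι K) := (expo ι N).image fun s => monomial s (1 : K) with hW
  have hspan : Set.range v ≤ Submodule.span K (W : Set (MvPolynomial ι K)) := by
    rintro _ ⟨t, rfl⟩
    rw [SetLike.mem_coe]
    rw [← support_sum_monomial_coeff (v t)]
    refine Submodule.sum_mem _ fun s hs => ?_
    have h1 : monomial s (coeff s (v t)) = coeff s (v t) • monomial s (1 : K) := by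
      rw [smul_monomial, smul_eq_mul, mul_one]
    rw [h1]
    refine Submodule.smul_mem _ _ (Submodule.subset_span ?_)
    rw [mem_coe, hW, mem_image]
    refine ⟨s, mem_expo.2 ?_, rfl⟩
    have h2 := le_totalDegree hs
    rw [Finsupp.sum_fintype _ _ (fun _ => rfl)] at h2
    exact h2.trans (hN t)
  have h1 := linearIndependent_le_span_aux' v hv (W : Set (MvPolynomial ι K)) hspan
  have h2 : Fintype.card (W : Set (MvPolynomial ι K)) = W.card := by simp
  rw [h2] at h1
  exact h1.trans card_image_le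

/-- the ratio of the dimensions -/
theorem ratio (k r δ : ℕ) : Filter.Tendsto (fun σ : ℕ =>
    (((r * σ + δ + k + 1).choose (k + 1) : ℕ) : ℝ) / (((σ + k + 1).choose (k + 1) : ℕ) : ℝ))
    Filter.atTop (nhds ((r : ℝ) ^ (k + 1))) := by
  have e : ∀ N : ℕ, (((N + k + 1).choose (k + 1) : ℕ) : ℝ) =
      (∏ i ∈ range (k + 1), ((N : ℝ) + 1 + i)) / ((k + 1).factorial : ℝ) := by
    intro N
    have h1 := Nat.ascFactorial_eq_factorial_mul_choose N (k + 1)
    have h2 := Nat.ascFactorial_eq_prod_range (N + 1) (k + 1)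
    rw [eq_div_iff (by positivity), mul_comm]
    rw [h2] at h1
    have h3 : ((∏ i ∈ range (k + 1), (N + 1 + i) : ℕ) : ℝ) =
        (((k + 1).factorial * (N + (k + 1)).choose (k + 1) : ℕ) : ℝ) := by rw [h1]
    push_cast at h3
    rw [h3]
    rfl
  have e2 : ∀ σ : ℕ, (((r * σ + δ + k + 1).choose (k + 1) : ℕ) : ℝ) /
      (((σ + k + 1).choose (k + 1) : ℕ) : ℝ) =
      ∏ i ∈ range (k + 1), ((((r * σ + δ : ℕ) : ℝ) + 1 + i) / ((σ : ℝ) + 1 + i)) := by
    intro σ
    rw [e, e, prod_div_distrib]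
    have h1 : ((k + 1).factorial : ℝ) ≠ 0 := by positivity
    have h2 : (∏ i ∈ range (k + 1), ((σ : ℝ) + 1 + i)) ≠ 0 :=
      prod_ne_zero_iff.2 fun i _ => by positivity
    field_simp
  simp only [e2]
  have h3 : (r : ℝ) ^ (k + 1) = ∏ _i ∈ range (k + 1), (r : ℝ) := by
    rw [prod_const, card_range]
  rw [h3]
  refine tendsto_finsetProd _ fun i _ => ?_
  have h4 : ∀ σ : ℕ, (((r * σ + δ : ℕ) : ℝ) + 1 + i) / ((σ : ℝ) + 1 + i) =
      (r : ℝ) + ((δ : ℝ) + 1 + i - r * (1 + i)) / ((σ : ℝ) + (1 + i)) := by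
    intro σ
    have : (σ : ℝ) + 1 + i ≠ 0 := by positivity
    push_cast
    rw [← add_assoc (σ : ℝ) 1 (i : ℝ)]
    field_simp
    ring
  simp only [h4]
  have h5 : Filter.Tendsto (fun σ : ℕ => ((δ : ℝ) + 1 + i - r * (1 + i)) / ((σ : ℝ) + (1 + i)))
      Filter.atTop (nhds 0) := by
    refine Filter.Tendsto.div_atTop tendsto_const_nhds ?_
    exact Filter.tendsto_atTop_add_const_right _ _ tendsto_natCast_atTop_atTop
  simpa using tendsto_const_nhds.add h5

/-- weighted exponents -/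
theorem card_weighted {κ : Type*} [Fintype κ] [DecidableEq κ] (deg : κ → ℕ)
    (hdeg : ∀ i, 1 ≤ deg i) (σ : ℕ) : (expo κ σ).card ≤
      ((expo κ σ).filter fun β => ∑ i, β i * deg i ≤ σ).card * ∏ i, deg i := by
  classical
  have h1 : ((expo κ σ).filter fun β => ∑ i, β i * deg i ≤ σ).card * ∏ i, deg i =
      (((expo κ σ).filter fun β => ∑ i, β i * deg i ≤ σ) ×ˢ
        Fintype.piFinset fun i => range (deg i)).card := by
    rw [card_product, Fintype.card_piFinset]
    simp only [card_range]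
  rw [h1]
  refine card_le_card_of_injOn
    (fun γ => (Finsupp.equivFunOnFinite.symm fun i => γ i / deg i, fun i => γ i % deg i)) ?_ ?_
  · intro γ hγ
    rw [mem_coe, mem_expo] at hγ
    rw [mem_coe, mem_product, mem_filter, mem_expo, Fintype.mem_piFinset]
    simp only [Finsupp.equivFunOnFinite_symm_apply_apply, mem_range]
    refine ⟨⟨(sum_le_sum fun i _ => Nat.div_le_self _ _).trans hγ,
      (sum_le_sum fun i _ => Nat.div_mul_le_self _ _).trans hγ⟩, fun i => ?_⟩
    exact Nat.mod_lt _ (hdeg i)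
  · intro γ _ γ' _ h
    rw [Prod.mk.injEq] at h
    ext i
    have h2 := DFunLike.congr_fun h.1 i
    have h3 := congrFun h.2 i
    simp only [Finsupp.equivFunOnFinite_symm_apply_apply] at h2 h3
    rw [← Nat.div_add_mod (γ i) (deg i), ← Nat.div_add_mod (γ' i) (deg i), h2, h3]

/-- **Bezout's inequality for nondegenerate zeros** -/
theorem bezout {K : Type*} [Field K] [Infinite K] {ι κ : Type*} [Fintype ι] [Fintype κ]
    (hcard : Fintype.card κ = Fintype.card ι) (G : κ → MvPolynomial ι K) (deg : κ → ℕ)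
    (hdeg : ∀ i, 1 ≤ deg i) (hr : ∀ i, (G i).totalDegree ≤ deg i) (Z : Finset (ι → K))
    (hG : ∀ z ∈ Z, ∀ i, eval z (G i) = 0)
    (hsurj : ∀ z ∈ Z, ∀ v : κ → K, ∃ w : ι → K, ∀ i, ∑ j, eval z (pderiv j (G i)) * w j = v i) :
    Z.card ≤ ∏ i, deg i := by
  classical
  rcases Nat.eq_zero_or_pos (Fintype.card ι) with h0 | hpos
  · have : IsEmpty ι := Fintype.card_eq_zero_iff.1 h0
    have h1 : 1 ≤ ∏ i, deg i := Nat.one_le_iff_ne_zero.2
      (prod_ne_zero_iff.2 fun i _ => Nat.one_le_iff_ne_zero.1 (hdeg i))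
    exact (card_le_one.2 fun a _ b _ => Subsingleton.elim a b).trans h1
  obtain ⟨k, hk⟩ : ∃ k, Fintype.card ι = k + 1 := ⟨Fintype.card ι - 1, by omega⟩
  have hk' : Fintype.card κ = k + 1 := hcard.trans hk
  obtain ⟨P, δ, hP, hP1, hP0⟩ := lagrange Z
  have hsurj' : ∀ z ∈ Z, ∀ v : κ → K, ∃ w : ι → K, ∀ i, (line z w (G i)).coeff 1 = v i := by
    intro z hz v
    obtain ⟨w, hw⟩ := hsurj z hz v
    exact ⟨w, fun i => by rw [line_one, hw i]⟩
  -- the inequality for every `σ`
  have h1 : ∀ σ : ℕ, (σ + k + 1).choose (k + 1) * Z.card ≤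
      (∏ i, deg i) * (1 * σ + δ + k + 1).choose (k + 1) := by
    intro σ
    have h2 := dim_count _ (indep G Z hG hsurj' P hP1 hP0
      ((expo κ σ).filter fun β => ∑ i, β i * deg i ≤ σ)) (1 * σ + δ) (by
      rintro ⟨⟨β, hβ⟩, ⟨z, hz⟩⟩
      refine (totalDegree_mul _ _).trans (Nat.add_le_add ?_ (hP z hz))
      refine (totalDegree_finsetProd _ _).trans ?_
      calc ∑ i, (G i ^ (β i)).totalDegree ≤ ∑ i, β i * deg i := by
            refine sum_le_sum fun i _ => ?_
            exact (totalDegree_pow _ _).trans (Nat.mul_le_mul_left _ (hr i))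
        _ ≤ σ := (mem_filter.1 hβ).2
        _ = 1 * σ := (one_mul _).symm)
    rw [Fintype.card_prod, Fintype.card_coe, Fintype.card_coe, card_expo hk] at h2
    have h3 := card_weighted deg hdeg σ
    rw [card_expo hk'] at h3
    calc (σ + k + 1).choose (k + 1) * Z.card
        ≤ ((expo κ σ).filter fun β => ∑ i, β i * deg i ≤ σ).card * (∏ i, deg i) * Z.card :=
          Nat.mul_le_mul_right _ h3
      _ = (∏ i, deg i) * (((expo κ σ).filter fun β => ∑ i, β i * deg i ≤ σ).card * Z.card) := by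
          ring
      _ ≤ _ := Nat.mul_le_mul_left _ h2
  have h2 : ∀ σ : ℕ, (Z.card : ℝ) ≤ ((∏ i, deg i : ℕ) : ℝ) *
      ((((1 * σ + δ + k + 1).choose (k + 1) : ℕ) : ℝ) /
      (((σ + k + 1).choose (k + 1) : ℕ) : ℝ)) := by
    intro σ
    have h3 : 0 < (σ + k + 1).choose (k + 1) := Nat.choose_pos (by omega)
    rw [← mul_div_assoc, le_div_iff₀ (by exact_mod_cast h3), mul_comm]
    exact_mod_cast h1 σ
  have h4 : Filter.Tendsto (fun σ : ℕ => ((∏ i, deg i : ℕ) : ℝ) *
      ((((1 * σ + δ + k + 1).choose (k + 1) : ℕ) : ℝ) /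
      (((σ + k + 1).choose (k + 1) : ℕ) : ℝ))) Filter.atTop
      (nhds (((∏ i, deg i : ℕ) : ℝ) * (((1 : ℕ) : ℝ) ^ (k + 1)))) :=
    (ratio k 1 δ).const_mul _
  have h3 := ge_of_tendsto' h4 h2
  rw [Nat.cast_one, one_pow, mul_one] at h3
  exact_mod_cast h3

end Pool.Agent.V7H22.AK
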