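import Mathlib

/-! # Realisation of products of affine images of planar sets in the plane -/

set_option autoImplicit false

namespace Pool.Agent.V7H22.AK

open Finset

/-- the projection `y + u (x - y)` of the point `(x, y)` -/
def pr (u : ℚ) (p : ℤ × ℤ) : ℚ := (p.2 : ℚ) + u * ((p.1 : ℚ) - p.2)

/-- the difference of the coordinates -/
def df (p : ℤ × ℤ) : ℤ := p.1 - p.2

/-- vectors can be replaced by integers -/
theorem realise {Ω : Type*} [Fintype Ω] {ι : Type*} [Fintype ι] (y d : Ω → ι → ℚ)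
    (U : Finset ℚ) : ∃ Φ : Ω → ℤ × ℤ,
    (∀ u ∈ U, ∀ p q, pr u (Φ p) = pr u (Φ q) ↔ y p + u • d p = y q + u • d q) ∧
    (∀ p q, df (Φ p) = df (Φ q) ↔ d p = d q) := by
  classical
  -- the vectors on which the functional has to be injective
  set F : Finset (ι → ℚ) := (univ.image fun pq : Ω × Ω => d pq.1 - d pq.2) ∪
    (U ×ˢ (univ : Finset (Ω × Ω))).image
      (fun t => (y t.2.1 + t.1 • d t.2.1) - (y t.2.2 + t.1 • d t.2.2)) with hF
  obtain ⟨lam, hlam⟩ := Module.exists_dual_forall_apply_ne_zero (K := ℚ) (M := ι → ℚ)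
    (fun v : {v : ι → ℚ // v ∈ F.filter (fun v => v ≠ 0)} => v.1)
    (fun v => (mem_filter.1 v.2).2)
  have hl : ∀ v ∈ F, lam v = 0 → v = 0 := by
    intro v hv h0
    by_contra hne
    exact hlam ⟨v, mem_filter.2 ⟨hv, hne⟩⟩ h0
  set f1 : Ω → ℚ := fun p => lam (y p) + lam (d p) with hf1
  set f2 : Ω → ℚ := fun p => lam (y p) with hf2
  set M : ℕ := ∏ p : Ω, ((f1 p).den * (f2 p).den) with hM
  have hM0 : (M : ℚ) ≠ 0 := by
    rw [Nat.cast_ne_zero, hM, prod_ne_zero_iff]
    intro p _
    exact mul_ne_zero (f1 p).den_nz (f2 p).den_nz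
  have hdvd : ∀ p : Ω, (f1 p).den * (f2 p).den ∣ M := fun p => dvd_prod_of_mem _ (mem_univ p)
  have h1 : ∀ q : ℚ, q.den ∣ M → ((⌊(M : ℚ) * q⌋ : ℤ) : ℚ) = M * q := by
    rintro q ⟨c, hc⟩
    have h2 : (M : ℚ) * q = ((c * q.num : ℤ) : ℚ) := by
      rw [hc]
      have h3 : (q.den : ℚ) * q = q.num := by
        rw [mul_comm]
        exact Rat.mul_den_eq_num q
      push_cast
      calc (q.den : ℚ) * c * q = c * (q.den * q) := by ring
        _ = c * q.num := by rw [h3]
    rw [h2, Int.floor_intCast]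
  set Φ : Ω → ℤ × ℤ := fun p => (⌊(M : ℚ) * f1 p⌋, ⌊(M : ℚ) * f2 p⌋) with hΦ
  have e1 : ∀ p, (((Φ p).1 : ℤ) : ℚ) = M * f1 p := fun p =>
    h1 _ ((Dvd.intro _ rfl).trans (hdvd p))
  have e2 : ∀ p, (((Φ p).2 : ℤ) : ℚ) = M * f2 p := fun p =>
    h1 _ ((Dvd.intro_left _ rfl).trans (hdvd p))
  have e3 : ∀ u p, pr u (Φ p) = M * lam (y p + u • d p) := by
    intro u p
    unfold pr
    rw [e1, e2, hf1, hf2, map_add, map_smul, smul_eq_mul]
    ring
  have e4 : ∀ p, ((df (Φ p) : ℤ) : ℚ) = M * lam (d p) := by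
    intro p
    unfold df
    rw [Int.cast_sub, e1, e2, hf1, hf2]
    ring
  refine ⟨Φ, ?_, ?_⟩
  · intro u hu p q
    rw [e3, e3]
    constructor
    · intro h
      have h2 := mul_left_cancel₀ hM0 h
      have h3 : lam ((y p + u • d p) - (y q + u • d q)) = 0 := by
        rw [map_sub, h2, sub_self]
      refine sub_eq_zero.1 (hl _ ?_ h3)
      rw [hF, mem_union]
      right
      exact mem_image.2 ⟨(u, (p, q)), mem_product.2 ⟨hu, mem_univ _⟩, rfl⟩
    · intro h
      rw [h]
  · intro p q
    constructor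
    · intro h
      have h' : (M : ℚ) * lam (d p) = M * lam (d q) := by rw [← e4, ← e4, h]
      have h2 := mul_left_cancel₀ hM0 h'
      have h3 : lam (d p - d q) = 0 := by rw [map_sub, h2, sub_self]
      refine sub_eq_zero.1 (hl _ ?_ h3)
      rw [hF, mem_union]
      left
      exact mem_image.2 ⟨(p, q), mem_univ _, rfl⟩
    · intro h
      have : ((df (Φ p) : ℤ) : ℚ) = df (Φ q) := by rw [e4, e4, h]
      exact_mod_cast this

/-- words of points, every position with its own affine change of the slopes -/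
theorem realiseW {Ω : Type*} [Fintype Ω] {β : Type*} [Fintype β] (X : Ω → β → ℤ × ℤ)
    (c : β → ℚ) (e : ℚ) (he : e ≠ 0) (U : Finset ℚ) : ∃ Φ : Ω → ℤ × ℤ,
    (∀ u ∈ U, ∀ p q, pr u (Φ p) = pr u (Φ q) ↔
      ∀ b, pr (c b + e * u) (X p b) = pr (c b + e * u) (X q b)) ∧
    (∀ p q, df (Φ p) = df (Φ q) ↔ ∀ b, df (X p b) = df (X q b)) := by
  obtain ⟨Φ, h1, h2⟩ := realise (fun p b => pr (c b) (X p b))
    (fun p b => e * (df (X p b) : ℚ)) U
  refine ⟨Φ, fun u hu p q => ?_, fun p q => ?_⟩
  · rw [h1 u hu p q, funext_iff]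
    refine forall_congr' fun b => ?_
    have : ∀ t : Ω, ((fun b => pr (c b) (X t b)) + u • fun b => e * (df (X t b) : ℚ)) b =
        pr (c b + e * u) (X t b) := by
      intro t
      simp only [Pi.add_apply, Pi.smul_apply, smul_eq_mul]
      unfold pr df
      push_cast
      ring
    rw [this, this]
  · rw [h2 p q, funext_iff]
    refine forall_congr' fun b => ?_
    constructor
    · intro h
      have := mul_left_cancel₀ he h
      exact_mod_cast this
    · intro h
      rw [h]

/-- a function with coarser fibres has a smaller image -/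
theorem card_image_le_of {Ω α β : Type*} [DecidableEq α] [DecidableEq β] (s : Finset Ω)
    (f : Ω → α) (g : Ω → β) (h : ∀ p ∈ s, ∀ q ∈ s, g p = g q → f p = f q) :
    (s.image f).card ≤ (s.image g).card := by
  classical
  set P := s.image fun p => (f p, g p) with hP
  have h1 : (P.image Prod.snd).card = P.card := by
    apply card_image_of_injOn
    intro x hx y hy hxy
    rw [mem_coe, hP, mem_image] at hx hy
    obtain ⟨p, hp, rfl⟩ := hx
    obtain ⟨q, hq, rfl⟩ := hy
    simp only at hxy
    exact Prod.ext (h p hp q hq hxy) hxy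
  have h2 : P.image Prod.snd = s.image g := by
    rw [hP, image_image]
    rfl
  have h3 : P.image Prod.fst = s.image f := by
    rw [hP, image_image]
    rfl
  rw [← h2, h1, ← h3]
  exact card_image_le

/-- functions with the same fibres have images of the same size -/
theorem card_image_congr {Ω α β : Type*} [DecidableEq α] [DecidableEq β] (s : Finset Ω)
    (f : Ω → α) (g : Ω → β) (h : ∀ p ∈ s, ∀ q ∈ s, f p = f q ↔ g p = g q) :
    (s.image f).card = (s.image g).card :=
  le_antisymm (card_image_le_of s f g fun p hp q hq => (h p hp q hq).2)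
    (card_image_le_of s g f fun p hp q hq => (h p hp q hq).1)

/-- the image of a product -/
theorem card_image_pi {β : Type*} [Fintype β] [DecidableEq β] {T γ : Type*} [Fintype T]
    [DecidableEq T] [DecidableEq γ] (g : β → T → γ) :
    ((univ : Finset (β → T)).image fun w b => g b (w b)).card =
      ∏ b, ((univ : Finset T).image (g b)).card := by
  classical
  rw [← Fintype.card_piFinset]
  congr 1
  ext v
  rw [mem_image, Fintype.mem_piFinset]
  constructor
  · rintro ⟨w, -, rfl⟩ b
    exact mem_image_of_mem _ (mem_univ _)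
  · intro h
    have h' : ∀ b, ∃ t : T, g b t = v b := fun b => by
      obtain ⟨t, -, ht⟩ := mem_image.1 (h b)
      exact ⟨t, ht⟩
    choose w hw using h'
    exact ⟨w, mem_univ _, funext hw⟩

end Pool.Agent.V7H22.AK
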