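import Mathlib
import Pool.Agent.V7H22.AK.Real
import Pool.Agent.R470.AK.Part

/-! # The arithmetic Kakeya inequality in the mean over progressions of slopes -/

set_option autoImplicit false

namespace Pool.Agent.V7H22.AK

open Finset

/-- the projection `π_r(A) = {x + r y : (x, y) ∈ A}` -/
def proj (r : ℚ) (A : Finset (ℤ × ℤ)) : Finset ℚ :=
  A.image (fun p : ℤ × ℤ => (p.1 : ℚ) + r * (p.2 : ℚ))

/-- the projection `π_∞(A) = {y : (x, y) ∈ A}` -/
def projInf (A : Finset (ℤ × ℤ)) : Finset ℚ := A.image (fun p : ℤ × ℤ => (p.2 : ℚ))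

/-- the largest size of a projection of `A` with slope `∞` or in `S` -/
def big (S : Finset ℚ) (A : Finset (ℤ × ℤ)) : ℕ :=
  max (projInf A).card (S.sup fun r => (proj r A).card)

/-- the inequality with exponent `κ` and the slopes `∞` and `S` -/
def Bound (S : Finset ℚ) (κ : ℝ) : Prop :=
  ∀ A : Finset (ℤ × ℤ), ((proj (-1) A).card : ℝ) ≤ (big S A : ℝ) ^ κ

/-- the exponent `κ` is attained by some finite set of slopes different from `-1` -/
def Attained (κ : ℝ) : Prop := ∃ S : Finset ℚ, (-1 : ℚ) ∉ S ∧ Bound S κ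

/-- the projection with the coordinate `u = 1 / (r + 1)` of the slope -/
def pu (u : ℚ) (A : Finset (ℤ × ℤ)) : Finset ℚ := A.image (pr u)

theorem pr_slope {r : ℚ} (hr : r ≠ -1) (p : ℤ × ℤ) :
    (r + 1) * pr (1 / (r + 1)) p = (p.1 : ℚ) + r * (p.2 : ℚ) := by
  have h : r + 1 ≠ 0 := fun h => hr (by linarith)
  unfold pr
  field_simp
  ring

theorem slope_iff {r : ℚ} (hr : r ≠ -1) (p q : ℤ × ℤ) :
    (p.1 : ℚ) + r * (p.2 : ℚ) = (q.1 : ℚ) + r * (q.2 : ℚ) ↔
      pr (1 / (r + 1)) p = pr (1 / (r + 1)) q := by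
  have h : r + 1 ≠ 0 := fun h => hr (by linarith)
  rw [← pr_slope hr p, ← pr_slope hr q]
  exact ⟨fun h' => mul_left_cancel₀ h h', fun h' => by rw [h']⟩

theorem pr_zero (p : ℤ × ℤ) : pr 0 p = (p.2 : ℚ) := by
  unfold pr
  ring

theorem card_proj {r : ℚ} (hr : r ≠ -1) (A : Finset (ℤ × ℤ)) :
    (proj r A).card = (pu (1 / (r + 1)) A).card :=
  card_image_congr A _ _ fun p _ q _ => slope_iff hr p q

theorem card_projInf (A : Finset (ℤ × ℤ)) : (projInf A).card = (pu 0 A).card := by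
  refine card_image_congr A _ _ fun p _ q _ => ?_
  rw [pr_zero, pr_zero]

theorem card_diff (A : Finset (ℤ × ℤ)) : (proj (-1) A).card = (A.image df).card := by
  refine card_image_congr A _ _ fun p _ q _ => ?_
  unfold df
  constructor
  · intro h
    have : (p.1 : ℚ) - p.2 = (q.1 : ℚ) - q.2 := by linarith
    exact_mod_cast this
  · intro h
    have : ((p.1 - p.2 : ℤ) : ℚ) = ((q.1 - q.2 : ℤ) : ℚ) := by rw [h]
    push_cast at this
    linarith

/-- the largest projection is one of the projections -/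
theorem big_le {S : Finset ℚ} (h0 : (-1 : ℚ) ∉ S) (A : Finset (ℤ × ℤ)) :
    ∃ u : ℚ, (u = 0 ∨ ∃ r ∈ S, u = 1 / (r + 1)) ∧ big S A = (pu u A).card := by
  unfold big
  rcases le_total (S.sup fun r => (proj r A).card) (projInf A).card with h | h
  · exact ⟨0, Or.inl rfl, by rw [max_eq_left h, card_projInf]⟩
  · rcases S.eq_empty_or_nonempty with rfl | hS
    · refine ⟨0, Or.inl rfl, ?_⟩
      rw [sup_empty, ← card_projInf]
      exact max_eq_left bot_le
    · obtain ⟨r, hr, hr'⟩ := exists_mem_eq_sup S hS fun r => (proj r A).card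
      refine ⟨1 / (r + 1), Or.inr ⟨r, hr, rfl⟩, ?_⟩
      rw [max_eq_right h, hr', card_proj]
      rintro rfl
      exact h0 hr

/-- the inequality for products of sets with transformed slopes -/
theorem master {S : Finset ℚ} {κ : ℝ} (h0 : (-1 : ℚ) ∉ S) (h : Bound S κ) :
    ∃ k : ℕ, ∀ (K : ℕ) (a δ : ℚ), δ ≠ 0 → ∀ A : Finset (ℤ × ℤ), ∃ i ≤ k,
      ((A.image df).card : ℝ) ^ K ≤
        ((∏ b ∈ range K, (pu (a + δ * ((i : ℚ) + b)) A).card : ℕ) : ℝ) ^ κ := by
  classical
  obtain ⟨k, q, p, hq, hpk, hfit⟩ := Pool.Agent.R470.AK.fit S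
  refine ⟨k, fun K a δ hδ A => ?_⟩
  obtain ⟨Φ, h1, h2⟩ := realiseW (Ω := Fin K → {x // x ∈ A}) (β := Fin K)
    (fun w b => (w b).1) (fun b => a + δ * (((b : ℕ) : ℚ) + p)) (δ * q) (mul_ne_zero hδ hq)
    (insert 0 (S.image fun r => 1 / (r + 1)))
  set B : Finset (ℤ × ℤ) := univ.image Φ with hB
  have hA : ∀ {γ : Type} [DecidableEq γ] (g : ℤ × ℤ → γ),
      ((univ : Finset {x // x ∈ A}).image fun t => g t.1) = A.image g := by
    intro γ _ g
    ext z
    simp only [mem_image, mem_univ, true_and, Subtype.exists, exists_prop]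
  -- the sizes of the projections
  have hd : (B.image df).card = (A.image df).card ^ K := by
    rw [hB, image_image]
    rw [card_image_congr univ (df ∘ Φ) (fun (w : Fin K → {x // x ∈ A}) b => df (w b).1)
      (fun p _ q _ => by rw [funext_iff]; exact h2 p q)]
    rw [card_image_pi (fun (_ : Fin K) (t : {x // x ∈ A}) => df t.1)]
    simp only [hA df, prod_const, card_univ, Fintype.card_fin]
  have hu : ∀ u ∈ insert 0 (S.image fun r : ℚ => 1 / (r + 1)), (pu u B).card =
      ∏ b : Fin K, (pu (a + δ * (((b : ℕ) : ℚ) + p) + δ * q * u) A).card := by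
    intro u hu
    unfold pu
    rw [hB, image_image]
    rw [card_image_congr univ (pr u ∘ Φ) (fun (w : Fin K → {x // x ∈ A}) (b : Fin K) =>
      pr (a + δ * (((b : ℕ) : ℚ) + p) + δ * q * u) (w b).1)
      (fun p _ q _ => by rw [funext_iff]; exact h1 u hu p q)]
    rw [card_image_pi (fun (b : Fin K) (t : {x // x ∈ A}) =>
      pr (a + δ * (((b : ℕ) : ℚ) + p) + δ * q * u) t.1)]
    refine prod_congr rfl fun b _ => ?_
    rw [hA (pr (a + δ * (((b : ℕ) : ℚ) + p) + δ * q * u))]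
  obtain ⟨u, hu0, hbig⟩ := big_le h0 B
  have hmem : u ∈ insert 0 (S.image fun r : ℚ => 1 / (r + 1)) := by
    rcases hu0 with rfl | ⟨r, hr, rfl⟩
    · exact mem_insert_self _ _
    · exact mem_insert_of_mem (mem_image_of_mem _ hr)
  obtain ⟨i, hik, hi⟩ : ∃ i ≤ k, (i : ℚ) = p + q * u := by
    rcases hu0 with rfl | ⟨r, hr, rfl⟩
    · exact ⟨p, hpk, by ring⟩
    · exact hfit r hr
  refine ⟨i, hik, ?_⟩
  have h3 := h B
  rw [card_diff, hd, hbig, hu u hmem] at h3
  push_cast at h3 ⊢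
  refine h3.trans (le_of_eq ?_)
  congr 1
  rw [← Fin.prod_univ_eq_prod_range (fun b => ((pu (a + δ * ((i : ℚ) + (b : ℕ))) A).card : ℝ)) K]
  refine prod_congr rfl fun b _ => ?_
  congr 3
  rw [hi]
  ring

end Pool.Agent.V7H22.AK
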