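import Mathlib
import Pool.Agent.V7H22.AK.Mean
import Pool.Agent.H602R3.DHJ.Main

/-! # Geometric means and almost all slopes -/

set_option autoImplicit false

namespace Pool.Agent.V7H22.AK

open Finset

/-- one point for every difference -/
theorem exists_sub (A : Finset (ℤ × ℤ)) : ∃ B ⊆ A, Set.InjOn df (B : Set (ℤ × ℤ)) ∧
    B.image df = A.image df := by
  obtain ⟨u, h1, h2, h3⟩ := exists_subset_injOn_image_eq_of_surjOn (f := df)
    (A : Set (ℤ × ℤ)) (A.image df) (by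
      intro z hz
      rw [mem_coe, mem_image] at hz
      obtain ⟨p, hp, rfl⟩ := hz
      exact ⟨p, hp, rfl⟩)
  exact ⟨u, by exact_mod_cast h1, h2, h3⟩

/-- the geometric mean over a progression of slopes -/
theorem geo {κ κ' : ℝ} (hκ : 1 ≤ κ) (hκκ : κ < κ') (h : Attained κ) :
    ∃ K0 : ℕ, ∀ K : ℕ, K0 ≤ K → ∀ a δ : ℚ, δ ≠ 0 → ∀ A : Finset (ℤ × ℤ),
      ((A.image df).card : ℝ) ^ K ≤
        ((∏ b ∈ range K, (pu (a + δ * (b : ℚ)) A).card : ℕ) : ℝ) ^ κ' := by
  classical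
  obtain ⟨S, h0, hS⟩ := h
  obtain ⟨k, hk⟩ := master h0 hS
  obtain ⟨K1, hK1⟩ : ∃ K1 : ℕ, (k : ℝ) * κ * κ' / (κ' - κ) ≤ K1 := exists_nat_ge _
  refine ⟨K1 + 1, fun K hK a δ hδ A => ?_⟩
  have hκ0 : 0 < κ := by linarith
  have hκ'0 : 0 < κ' := by linarith
  rcases A.eq_empty_or_nonempty with rfl | hA
  · have hK0 : K ≠ 0 := by omega
    simp only [image_empty, card_empty, Nat.cast_zero, zero_pow hK0]
    positivity
  obtain ⟨B, hBA, hinj, hBim⟩ := exists_sub A
  have hB : B.Nonempty := by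
    rw [← image_nonempty (f := df), hBim, image_nonempty]
    exact hA
  set N : ℕ := B.card with hN
  have hN1 : 1 ≤ N := hB.card_pos
  have hNd : (A.image df).card = N := by rw [← hBim, card_image_of_injOn hinj]
  set P : ℕ → ℕ := fun j => (pu (a + δ * (j : ℚ)) B).card with hP
  have hP1 : ∀ j, 1 ≤ P j := fun j => (hB.image _).card_pos
  have hPN : ∀ j, P j ≤ N := fun j => card_image_le
  obtain ⟨i, hik, hi⟩ := hk K a δ hδ B
  have h1 : ∏ b ∈ range K, (pu (a + δ * ((i : ℚ) + b)) B).card ≤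
      (∏ b ∈ range K, P b) * N ^ k := by
    have e : ∏ b ∈ range K, (pu (a + δ * ((i : ℚ) + b)) B).card = ∏ b ∈ range K, P (i + b) := by
      refine prod_congr rfl fun b _ => ?_
      rw [hP]
      push_cast
      rfl
    rw [e]
    have h2 : (∏ b ∈ range i, P b) * ∏ b ∈ range K, P (i + b) =
        (∏ b ∈ range K, P b) * ∏ b ∈ range i, P (K + b) := by
      rw [← prod_range_add, ← prod_range_add, add_comm]
    have h3 : 1 ≤ ∏ b ∈ range i, P b := Nat.one_le_iff_ne_zero.2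
      (prod_ne_zero_iff.2 fun b _ => Nat.one_le_iff_ne_zero.1 (hP1 b))
    have h4 : ∏ b ∈ range i, P (K + b) ≤ N ^ i := by
      calc ∏ b ∈ range i, P (K + b) ≤ ∏ _b ∈ range i, N := prod_le_prod' fun b _ => hPN _
        _ = N ^ i := by rw [prod_const, card_range]
    calc ∏ b ∈ range K, P (i + b) ≤ (∏ b ∈ range i, P b) * ∏ b ∈ range K, P (i + b) :=
          Nat.le_mul_of_pos_left _ h3
      _ = (∏ b ∈ range K, P b) * ∏ b ∈ range i, P (K + b) := h2
      _ ≤ (∏ b ∈ range K, P b) * N ^ i := Nat.mul_le_mul_left _ h4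
      _ ≤ (∏ b ∈ range K, P b) * N ^ k :=
          Nat.mul_le_mul_left _ (Nat.pow_le_pow_right hN1 hik)
  have hBd : (B.image df).card = N := card_image_of_injOn hinj
  rw [hBd] at hi
  rw [hNd]
  have hN0 : (0 : ℝ) < N := by exact_mod_cast hN1
  have hN1r : (1 : ℝ) ≤ N := by exact_mod_cast hN1
  obtain ⟨G, hG⟩ : ∃ G : ℝ, G = ((∏ b ∈ range K, P b : ℕ) : ℝ) := ⟨_, rfl⟩
  have hG1 : 1 ≤ G := by
    rw [hG]
    exact_mod_cast Nat.one_le_iff_ne_zero.2
      (prod_ne_zero_iff.2 fun b _ => Nat.one_le_iff_ne_zero.1 (hP1 b))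
  have hG0 : 0 < G := by linarith
  -- the inequality for `G`
  have h5 : (N : ℝ) ^ K ≤ (G * (N : ℝ) ^ k) ^ κ := by
    refine hi.trans (Real.rpow_le_rpow (Nat.cast_nonneg _) ?_ hκ0.le)
    rw [hG]
    exact_mod_cast h1
  have h6 : (K : ℝ) * Real.log N ≤ κ * (Real.log G + k * Real.log N) := by
    have := Real.log_le_log (pow_pos hN0 _) h5
    rwa [Real.log_pow, Real.log_rpow (mul_pos hG0 (pow_pos hN0 _)),
      Real.log_mul hG0.ne' (pow_pos hN0 _).ne', Real.log_pow] at this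
  have hlN : 0 ≤ Real.log N := Real.log_nonneg hN1r
  have hKr : (k : ℝ) * κ * κ' ≤ (κ' - κ) * K := by
    rw [div_le_iff₀ (by linarith)] at hK1
    have : (K1 : ℝ) ≤ K := by
      have : K1 ≤ K := by omega
      exact_mod_cast this
    nlinarith
  have h7 : (K : ℝ) * Real.log N ≤ κ' * Real.log G := by
    have h8 : κ * ((K : ℝ) * Real.log N) ≤ κ * (κ' * Real.log G) := by
      nlinarith [mul_le_mul_of_nonneg_right hKr hlN, mul_le_mul_of_nonneg_left h6 hκ'0.le]
    exact le_of_mul_le_mul_left h8 hκ0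
  have h9 : (N : ℝ) ^ K ≤ G ^ κ' := by
    rw [← Real.log_le_log_iff (pow_pos hN0 _) (Real.rpow_pos_of_pos hG0 _), Real.log_pow,
      Real.log_rpow hG0]
    exact h7
  refine h9.trans (Real.rpow_le_rpow hG0.le ?_ hκ'0.le)
  rw [hG]
  have h10 : ∏ b ∈ range K, P b ≤ ∏ b ∈ range K, (pu (a + δ * (b : ℚ)) A).card :=
    prod_le_prod' fun b _ => card_le_card (image_subset_image hBA)
  exact_mod_cast h10

/-- in every progression of `k + 1` slopes one slope is good -/
theorem one_good {κ : ℝ} {S : Finset ℚ} (h0 : (-1 : ℚ) ∉ S) (hS : Bound S κ) :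
    ∃ k : ℕ, ∀ a δ : ℚ, δ ≠ 0 → ∀ A : Finset (ℤ × ℤ), ∃ i ≤ k,
      ((A.image df).card : ℝ) ≤ ((pu (a + δ * (i : ℚ)) A).card : ℝ) ^ κ := by
  obtain ⟨k, hk⟩ := master h0 hS
  refine ⟨k, fun a δ hδ A => ?_⟩
  obtain ⟨i, hik, hi⟩ := hk 1 a δ hδ A
  refine ⟨i, hik, ?_⟩
  simpa using hi

open Pool.Agent.H602R3.DHJ in
open Classical in
/-- almost all slopes in a cube without vanishing subsums -/
theorem cube {κ : ℝ} (h : Attained κ) : ∃ k : ℕ, ∀ m : ℕ, k ≤ m → ∀ θ : ℝ, 0 < θ →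
    ∃ n0 : ℕ, ∀ n : ℕ, n0 ≤ n → ∀ (a : ℚ) (c : Fin n → ℚ),
      (∀ I : Finset (Fin n), I.Nonempty → ∑ i ∈ I, c i ≠ 0) → ∀ A : Finset (ℤ × ℤ),
        (((univ : Finset (Fin n → Fin (m + 1))).filter fun w =>
          ((pu (a + ∑ i, c i * ((w i : ℕ) : ℚ)) A).card : ℝ) ^ κ <
            (A.image df).card).card : ℝ) ≤ θ * ((m : ℝ) + 1) ^ n := by
  obtain ⟨S, h0, hS⟩ := h
  obtain ⟨k, hk⟩ := one_good h0 hS
  refine ⟨k, fun m hkm θ hθ => ?_⟩
  obtain ⟨N, hN⟩ := dhj m θ hθ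
  refine ⟨N, fun n hn a c hc A => ?_⟩
  set Bd : Set (Fin n → Fin (m + 1)) := {w | ((pu (a + ∑ i, c i * ((w i : ℕ) : ℚ)) A).card : ℝ) ^ κ <
            (A.image df).card} with hBd
  have hlf : LFr Bd := by
    intro V hV
    set I : Finset (Fin n) := univ.filter fun i => V i = Sum.inr () with hI
    have hIne : I.Nonempty := by
      obtain ⟨i, hi⟩ := hV ()
      exact ⟨i, mem_filter.2 ⟨mem_univ _, hi⟩⟩
    -- the slopes on the line
    have hline : ∀ t : Fin (m + 1), a + ∑ i, c i * (((ap V (fun _ => t) i : Fin (m + 1)) : ℕ) : ℚ) =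
        (a + ∑ i ∈ univ.filter (fun i => ¬ V i = Sum.inr ()),
          c i * (((ap V (fun _ => 0) i : Fin (m + 1)) : ℕ) : ℚ)) +
          (∑ i ∈ I, c i) * ((t : ℕ) : ℚ) := by
      intro t
      rw [add_assoc]
      congr 1
      rw [← sum_filter_add_sum_filter_not univ (fun i => V i = Sum.inr ()), add_comm]
      congr 1
      · refine sum_congr rfl fun i hi => ?_
        have h := (mem_filter.1 hi).2
        congr 3
        unfold ap
        rcases hV : V i with b | u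
        · rfl
        · exact absurd (by rw [hV]) h
      · rw [sum_mul]
        refine sum_congr rfl fun i hi => ?_
        have h := (mem_filter.1 hi).2
        congr 3
        unfold ap
        rw [h]
        rfl
    obtain ⟨i, hik, hi⟩ := hk (a + ∑ i ∈ univ.filter (fun i => ¬ V i = Sum.inr ()),
          c i * (((ap V (fun _ => 0) i : Fin (m + 1)) : ℕ) : ℚ)) (∑ i ∈ I, c i) (hc I hIne) A
    refine ⟨⟨i, by omega⟩, fun hmem => ?_⟩
    have h2 : ((pu (a + ∑ j, c j * (((ap V (fun _ => (⟨i, by omega⟩ : Fin (m + 1))) j :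
      Fin (m + 1)) : ℕ) : ℚ)) A).card : ℝ) ^ κ < (A.image df).card := hmem
    rw [hline] at h2
    exact absurd hi (not_le.2 h2)
  have h1 : dn Bd < θ := D_up hN (Fin n) (by simpa using hn) Bd hlf
  have h2 : dn Bd = ((univ.filter fun w => w ∈ Bd).card : ℝ) /
      Fintype.card (Fin n → Fin (m + 1)) := by
    unfold dn av
    congr 1
    rw [card_filter]
    push_cast
    refine sum_congr rfl fun w _ => ?_
    by_cases hw : w ∈ Bd
    · rw [Set.indicator_of_mem hw, if_pos hw]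
    · rw [Set.indicator_of_notMem hw, if_neg hw]
  have hcard : (Fintype.card (Fin n → Fin (m + 1)) : ℝ) = ((m : ℝ) + 1) ^ n := by
    rw [Fintype.card_fun, Fintype.card_fin, Fintype.card_fin]
    push_cast
    rfl
  rw [h2, hcard, div_lt_iff₀ (by positivity)] at h1
  exact h1.le

end Pool.Agent.V7H22.AK
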