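import Mathlib

/-! # Type classes of words -/

set_option autoImplicit false

namespace Pool.Agent.V7H22.AK

open Finset

/-- the words with `τ a` letters `a` -/
def TC {α : Type} (n : ℕ) (τ : α → ℕ) : Type :=
  {w : Fin n → α // ∀ a, Nat.card {i // w i = a} = τ a}

theorem exists_tau {α : Type} [Fintype α] [DecidableEq α] (n : ℕ) :
    ∃ τ : α → ℕ, (Fintype.card α) ^ n ≤ (n + 1) ^ (Fintype.card α) * Nat.card (TC n τ) := by
  classical
  by_contra hcon
  push Not at hcon
  set f : (Fin n → α) → (α → Fin (n + 1)) := fun w a =>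
    ⟨Nat.card {i // w i = a}, by
      have : Nat.card {i // w i = a} ≤ Nat.card (Fin n) := Finite.card_subtype_le _
      rw [Nat.card_fin] at this
      omega⟩ with hf
  have h1 : ∀ t : α → Fin (n + 1), (univ.filter fun w => f w = t).card =
      Nat.card (TC n fun a => (t a : ℕ)) := by
    intro t
    rw [← Fintype.card_subtype, ← Nat.card_eq_fintype_card]
    refine Nat.card_congr (Equiv.subtypeEquivRight fun w => ?_)
    rw [funext_iff]
    refine forall_congr' fun a => ?_
    rw [Fin.ext_iff]
  have h2 : (univ : Finset (Fin n → α)).card = ∑ t ∈ (univ : Finset (α → Fin (n + 1))),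
      (univ.filter fun w => f w = t).card :=
    card_eq_sum_card_fiberwise fun w _ => mem_coe.2 (mem_univ _)
  have h3 : (univ : Finset (Fin n → α)).card = (Fintype.card α) ^ n := by
    rw [card_univ, Fintype.card_fun, Fintype.card_fin]
  have h4 : (univ : Finset (α → Fin (n + 1))).card = (n + 1) ^ (Fintype.card α) := by
    rw [card_univ, Fintype.card_fun, Fintype.card_fin]
  have h5 : ∑ t ∈ (univ : Finset (α → Fin (n + 1))),
      (n + 1) ^ (Fintype.card α) * (univ.filter fun w => f w = t).card <
      ∑ _t ∈ (univ : Finset (α → Fin (n + 1))), (Fintype.card α) ^ n := by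
    refine sum_lt_sum_of_nonempty univ_nonempty fun t _ => ?_
    rw [h1]
    exact hcon _
  rw [← mul_sum, ← h2, h3, sum_const, h4, smul_eq_mul] at h5
  exact lt_irrefl _ h5

/-- words of the same type are permutations of each other -/
theorem exists_perm {α : Type} {n : ℕ} {τ : α → ℕ} (w w' : TC n τ) :
    ∃ σ : Equiv.Perm (Fin n), ∀ i, w'.1 i = w.1 (σ i) := by
  classical
  have h : ∀ a, Nonempty ({i // w'.1 i = a} ≃ {i // w.1 i = a}) := by
    intro a
    refine Finite.card_eq.1 ?_
    rw [w'.2 a, w.2 a]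
  have e' : ∀ a, {i // w'.1 i = a} ≃ {i // w.1 i = a} := fun a => (h a).some
  refine ⟨(Equiv.sigmaFiberEquiv w'.1).symm.trans ((Equiv.sigmaCongrRight e').trans
    (Equiv.sigmaFiberEquiv w.1)), fun i => ?_⟩
  have h2 := (e' (w'.1 i) ⟨i, rfl⟩).2
  exact h2.symm

/-- permuting the positions -/
def permTC {α : Type} {n : ℕ} {τ : α → ℕ} (σ : Equiv.Perm (Fin n)) (w : TC n τ) : TC n τ :=
  ⟨fun i => w.1 (σ i), fun a => by
    rw [← w.2 a]
    exact Nat.card_congr (σ.subtypeEquiv fun i => Iff.rfl)⟩

end Pool.Agent.V7H22.AK
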