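import Mathlib
import Pool.Agent.V7H22.AK.Mean
import Pool.Agent.V7H22.AK.Geo
import Pool.Agent.V7H22.AK.Types

/-! # Homogeneous and flat sets suffice -/

set_option autoImplicit false

namespace Pool.Agent.V7H22.AK

open Finset

/-- a group of permutations of `A` which respects the fibres of all the projections with slopes
`∞` and in `S` is transitive on `A` -/
def Homogeneous (S : Finset ℚ) (A : Finset (ℤ × ℤ)) : Prop :=
  ∀ a ∈ A, ∀ b ∈ A, ∃ γ : ℤ × ℤ → ℤ × ℤ, Set.BijOn γ A A ∧ γ a = b ∧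
    ∀ p ∈ A, ∀ q ∈ A, (p.2 = q.2 ↔ (γ p).2 = (γ q).2) ∧
      ∀ r ∈ S, ((p.1 : ℚ) + r * (p.2 : ℚ) = (q.1 : ℚ) + r * (q.2 : ℚ) ↔
        ((γ p).1 : ℚ) + r * ((γ p).2 : ℚ) = ((γ q).1 : ℚ) + r * ((γ q).2 : ℚ))

/-- all the projections have nearly the same size -/
def Flat (S : Finset ℚ) (η : ℝ) (A : Finset (ℤ × ℤ)) : Prop :=
  (big S A : ℝ) ≤ (A.card : ℝ) ^ η * (projInf A).card ∧
    ∀ r ∈ S, (big S A : ℝ) ≤ (A.card : ℝ) ^ η * (proj r A).card

/-- windows of a sequence with values in `[1, T]` -/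
theorem window {g : ℕ → ℕ} {T : ℕ} (h1 : ∀ j, 1 ≤ g j) (h2 : ∀ j, g j ≤ T) (i s K : ℕ) :
    ∏ b ∈ range K, g (i + s + b) ≤ T ^ s * ∏ b ∈ range K, g (i + b) ∧
    ∏ b ∈ range K, g (i + b) ≤ T ^ s * ∏ b ∈ range K, g (i + s + b) := by
  have e : (∏ b ∈ range s, g (i + b)) * ∏ b ∈ range K, g (i + s + b) =
      (∏ b ∈ range K, g (i + b)) * ∏ b ∈ range s, g (i + K + b) := by
    have e1 := prod_range_add (fun b => g (i + b)) s K
    have e2 := prod_range_add (fun b => g (i + b)) K s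
    rw [add_comm K s] at e2
    simp only [← add_assoc] at e1 e2
    rw [← e1, ← e2]
  have l1 : ∀ c : ℕ, 1 ≤ ∏ b ∈ range s, g (c + b) := fun c => Nat.one_le_iff_ne_zero.2
    (prod_ne_zero_iff.2 fun b _ => Nat.one_le_iff_ne_zero.1 (h1 _))
  have l2 : ∀ c : ℕ, ∏ b ∈ range s, g (c + b) ≤ T ^ s := by
    intro c
    calc ∏ b ∈ range s, g (c + b) ≤ ∏ _b ∈ range s, T := prod_le_prod' fun b _ => h2 _
      _ = T ^ s := by rw [prod_const, card_range]
  constructor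
  · calc ∏ b ∈ range K, g (i + s + b) ≤ (∏ b ∈ range s, g (i + b)) *
          ∏ b ∈ range K, g (i + s + b) := Nat.le_mul_of_pos_left _ (l1 i)
      _ = (∏ b ∈ range K, g (i + b)) * ∏ b ∈ range s, g (i + K + b) := e
      _ ≤ (∏ b ∈ range K, g (i + b)) * T ^ s := Nat.mul_le_mul_left _ (l2 _)
      _ = _ := mul_comm _ _
  · calc ∏ b ∈ range K, g (i + b) ≤ (∏ b ∈ range K, g (i + b)) *
          ∏ b ∈ range s, g (i + K + b) := Nat.le_mul_of_pos_right _ (l1 _)
      _ = (∏ b ∈ range s, g (i + b)) * ∏ b ∈ range K, g (i + s + b) := e.symm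
      _ ≤ T ^ s * ∏ b ∈ range K, g (i + s + b) := Nat.mul_le_mul_right _ (l2 _)

theorem window' {g : ℕ → ℕ} {T : ℕ} (h1 : ∀ j, 1 ≤ g j) (h2 : ∀ j, g j ≤ T) (i j k K : ℕ)
    (hi : i ≤ k) (hj : j ≤ k) :
    ∏ b ∈ range K, g (i + b) ≤ T ^ k * ∏ b ∈ range K, g (j + b) := by
  have hT : 1 ≤ T := (h1 0).trans (h2 0)
  rcases le_total i j with h | h
  · obtain ⟨s, rfl⟩ := Nat.exists_eq_add_of_le h
    refine (window h1 h2 i s K).2.trans (Nat.mul_le_mul_right _ ?_)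
    exact Nat.pow_le_pow_right hT (by omega)
  · obtain ⟨s, rfl⟩ := Nat.exists_eq_add_of_le h
    refine (window h1 h2 j s K).1.trans (Nat.mul_le_mul_right _ ?_)
    exact Nat.pow_le_pow_right hT (by omega)

/-- exponential growth beats polynomial growth -/
theorem exists_pow {ρ : ℝ} (hρ : 1 < ρ) (C : ℝ) (N : ℕ) :
    ∃ n : ℕ, 1 ≤ n ∧ C * ((n : ℝ) + 1) ^ N < ρ ^ n := by
  have h := tendsto_pow_const_div_const_pow_of_one_lt N hρ
  have h2 := (Filter.tendsto_add_atTop_iff_nat 1).2 h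
  have h3 : ∀ᶠ n : ℕ in Filter.atTop, ((n + 1 : ℕ) : ℝ) ^ N / ρ ^ (n + 1) <
      1 / ((|C| + 1) * ρ) := by
    refine h2.eventually (gt_mem_nhds ?_)
    have : 0 < ρ := by linarith
    positivity
  obtain ⟨n, hn1, hn2⟩ := (h3.and (Filter.eventually_ge_atTop 1)).exists
  refine ⟨n, hn2, ?_⟩
  have hρ0 : 0 < ρ := by linarith
  rw [div_lt_div_iff₀ (by positivity) (by positivity), one_mul, pow_succ] at hn1
  push_cast at hn1
  have h4 : ((n : ℝ) + 1) ^ N * (|C| + 1) < ρ ^ n := by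
    have h5 : (((n : ℝ) + 1) ^ N * (|C| + 1)) * ρ < ρ ^ n * ρ := by
      calc (((n : ℝ) + 1) ^ N * (|C| + 1)) * ρ = ((n : ℝ) + 1) ^ N * ((|C| + 1) * ρ) := by ring
        _ < _ := hn1
    exact lt_of_mul_lt_mul_right h5 hρ0.le
  have h6 : 0 ≤ ((n : ℝ) + 1) ^ N := by positivity
  have h7 : C ≤ |C| + 1 := by linarith [le_abs_self C]
  nlinarith

/-- a set violating the inequality for all the slopes of a finite set of coordinates -/
theorem violate {κ : ℝ} (h : ¬ Attained κ) (U : Finset ℚ) :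
    ∃ (A : Finset (ℤ × ℤ)) (M : ℕ), 1 ≤ M ∧ A.Nonempty ∧ Set.InjOn df (A : Set (ℤ × ℤ)) ∧
      (∀ u ∈ U, (pu u A).card ≤ M) ∧ (M : ℝ) ^ κ < A.card := by
  classical
  set S : Finset ℚ := (U.filter fun u => u ≠ 0).image fun u => 1 / u - 1 with hS
  have h0 : (-1 : ℚ) ∉ S := by
    rw [hS, mem_image]
    rintro ⟨u, hu, hu'⟩
    have h1 := (mem_filter.1 hu).2
    have : 1 / u = 0 := by linarith
    rw [div_eq_zero_iff] at this
    rcases this with h2 | h2
    · exact one_ne_zero h2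
    · exact h1 h2
  have h1 : ¬ Bound S κ := fun hb => h ⟨S, h0, hb⟩
  unfold Bound at h1
  push Not at h1
  obtain ⟨A0, hA0⟩ := h1
  obtain ⟨A, hAA, hinj, him⟩ := exists_sub A0
  have hcard : (proj (-1) A0).card = A.card := by
    rw [card_diff, ← him, card_image_of_injOn hinj]
  rw [hcard] at hA0
  have hne : A.Nonempty := by
    rw [← card_pos]
    have : (0 : ℝ) < A.card := lt_of_le_of_lt (Real.rpow_nonneg (Nat.cast_nonneg _) _) hA0
    exact_mod_cast this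
  have hne0 : A0.Nonempty := hne.mono hAA
  refine ⟨A, big S A0, ?_, hne, hinj, fun u hu => ?_, hA0⟩
  · refine le_trans ?_ (le_max_left _ _)
    exact (hne0.image _).card_pos
  · have h2 : (pu u A).card ≤ (pu u A0).card := card_le_card (image_subset_image hAA)
    refine h2.trans ?_
    by_cases hu0 : u = 0
    · rw [hu0, ← card_projInf]
      exact le_max_left _ _
    · have hr : 1 / u - 1 ∈ S := mem_image.2 ⟨u, mem_filter.2 ⟨hu, hu0⟩, rfl⟩
      have hr1 : (1 / u - 1 : ℚ) ≠ -1 := fun h => h0 (h ▸ hr)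
      have h3 : u = 1 / ((1 / u - 1) + 1) := by
        rw [sub_add_cancel, one_div_one_div]
      rw [h3, ← card_proj hr1]
      exact (le_sup (f := fun r => (proj r A0).card) hr).trans (le_max_right _ _)

end Pool.Agent.V7H22.AK
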