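import Mathlib
import Pool.Agent.V7H22.AK.Hom

/-! # The reduction to homogeneous flat sets -/

set_option autoImplicit false

namespace Pool.Agent.V7H22.AK

open Finset

instance {α : Type} [Finite α] (n : ℕ) (τ : α → ℕ) : Finite (TC n τ) :=
  Subtype.finite

theorem hom {κ : ℝ} (hκ : 0 ≤ κ) (h : ¬ Attained κ) (S : Finset ℚ) (h0 : (-1 : ℚ) ∉ S)
    {η : ℝ} (hη : 0 < η) (C : ℝ) : ∃ A : Finset (ℤ × ℤ), A.Nonempty ∧
      Set.InjOn df (A : Set (ℤ × ℤ)) ∧ Homogeneous S A ∧ Flat S η A ∧
      C * (big S A : ℝ) ^ κ < A.card := by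
  classical
  obtain ⟨k, q, p, hq, hpk, hfit⟩ := Pool.Agent.R470.AK.fit S
  obtain ⟨K, hK1, hKη⟩ : ∃ K : ℕ, 1 ≤ K ∧ (k : ℝ) ≤ η * K := by
    obtain ⟨K, hK⟩ := exists_nat_ge ((k : ℝ) / η)
    refine ⟨K + 1, by omega, ?_⟩
    rw [div_le_iff₀ hη] at hK
    push_cast
    nlinarith
  -- the coordinates
  set u : ℕ → ℚ := fun j => ((j : ℚ) - p) / q with hu
  obtain ⟨A, M, hM1, hA, hinj, hUM, hMA⟩ := violate h ((range (k + K)).image u)
  set N : ℕ := A.card with hN
  have hMκ : 0 < (M : ℝ) ^ κ := Real.rpow_pos_of_pos (by exact_mod_cast hM1) _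
  set ρ : ℝ := (N : ℝ) / (M : ℝ) ^ κ with hρ
  have hρ1 : 1 < ρ := by
    rw [hρ, one_lt_div hMκ]
    exact hMA
  set C' : ℝ := max C 1 with hC'
  obtain ⟨n, hn1, hn⟩ := exists_pow hρ1 C' N
  -- the type class
  obtain ⟨τ, hτ⟩ := exists_tau (α := {x // x ∈ A}) n
  rw [Fintype.card_coe, ← hN] at hτ
  set T : Type := TC n τ with hT
  haveI : Fintype T := Fintype.ofFinite T
  have hTN : Nat.card (TC n τ) = Fintype.card T := Nat.card_eq_fintype_card
  rw [hTN] at hτ
  have hNpos : 0 < N := hA.card_pos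
  have hTpos : 0 < Fintype.card T := by
    rcases Nat.eq_zero_or_pos (Fintype.card T) with h1 | h1
    · rw [h1, mul_zero] at hτ
      exact absurd hτ (not_le.2 (pow_pos hNpos n))
    · exact h1
  haveI : Nonempty T := Fintype.card_pos_iff.1 hTpos
  -- the realisation
  obtain ⟨Φ, hΦ1, hΦ2⟩ := realiseW (Ω := Fin K → T) (β := Fin K × Fin n)
    (fun w b => ((w b.1).1 b.2).1) (fun b => ((b.1 : ℕ) : ℚ) / q) 1 one_ne_zero
    (insert 0 (S.image fun r => 1 / (r + 1)))
  have hΦinj : Function.Injective Φ := by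
    intro w w' hw
    have h1 := (hΦ2 w w').1 (by rw [hw])
    funext b
    apply Subtype.ext
    funext i
    apply Subtype.ext
    exact hinj ((w b).1 i).2 ((w' b).1 i).2 (h1 (b, i))
  set B : Finset (ℤ × ℤ) := univ.image Φ with hB
  have hBmem : ∀ x, x ∈ B ↔ ∃ w, Φ w = x := by
    intro x
    rw [hB, mem_image]
    simp only [mem_univ, true_and]
  have hBcard : B.card = (Fintype.card T) ^ K := by
    rw [hB, card_image_of_injective _ hΦinj, card_univ, Fintype.card_fun, Fintype.card_fin]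
  -- the sizes of the projections of the type class
  set g : ℕ → ℕ := fun j => ((univ : Finset T).image fun w i => pr (u j) ((w.1 i).1)).card with hg
  have hg1 : ∀ j, 1 ≤ g j := fun j => (univ_nonempty.image _).card_pos
  have hgT : ∀ j, g j ≤ Fintype.card T := fun j => card_image_le.trans_eq card_univ
  have hgM : ∀ j < k + K, g j ≤ M ^ n := by
    intro j hj
    have h1 : (univ : Finset T).image (fun w i => pr (u j) ((w.1 i).1)) ⊆
        Fintype.piFinset fun _ : Fin n => pu (u j) A := by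
      intro v hv
      obtain ⟨w, -, rfl⟩ := mem_image.1 hv
      rw [Fintype.mem_piFinset]
      intro i
      exact mem_image_of_mem _ (w.1 i).2
    refine (card_le_card h1).trans ?_
    rw [Fintype.card_piFinset, prod_const, card_univ, Fintype.card_fin]
    exact Nat.pow_le_pow_left (hUM _ (mem_image_of_mem u (mem_range.2 hj))) n
  -- the sizes of the projections of `B`
  have hsize : ∀ v ∈ insert 0 (S.image fun r : ℚ => 1 / (r + 1)), ∀ j : ℕ, v = u j →
      (pu v B).card = ∏ b ∈ range K, g (j + b) := by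
    intro v hv j hvj
    have e1 : (pu v B).card = ((univ : Finset (Fin K → T)).image fun w (b : Fin K) (i : Fin n) =>
        pr (u (j + (b : ℕ))) (((w b).1 i).1)).card := by
      unfold pu
      rw [hB, image_image]
      refine card_image_congr univ _ _ fun w _ w' _ => ?_
      simp only [Function.comp]
      rw [hΦ1 v hv w w', funext_iff]
      constructor
      · intro h1 b
        funext i
        have h2 := h1 (b, i)
        have e : ((b : ℕ) : ℚ) / q + 1 * v = u (j + (b : ℕ)) := by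
          rw [hvj, hu]
          push_cast
          field_simp
          ring
        simp only [e] at h2
        exact h2
      · intro h1 b
        have h2 := congrFun (h1 b.1) b.2
        have e : ((b.1 : ℕ) : ℚ) / q + 1 * v = u (j + (b.1 : ℕ)) := by
          rw [hvj, hu]
          push_cast
          field_simp
          ring
        simp only [e]
        exact h2
    rw [e1, card_image_pi (fun (b : Fin K) (w : T) (i : Fin n) =>
      pr (u (j + (b : ℕ))) ((w.1 i).1))]
    rw [← Fin.prod_univ_eq_prod_range (fun b => g (j + b)) K]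
  have hcoord : ∀ v : ℚ, (v = 0 ∨ ∃ r ∈ S, v = 1 / (r + 1)) → ∃ j ≤ k, v = u j := by
    intro v hv
    rcases hv with rfl | ⟨r, hr, rfl⟩
    · refine ⟨p, hpk, ?_⟩
      rw [hu]
      simp
    · obtain ⟨j, hj, hj'⟩ := hfit r hr
      refine ⟨j, hj, ?_⟩
      rw [hu]
      simp only
      rw [hj']
      unfold Pool.Agent.R470.AK.tm
      field_simp
      ring
  have hmem : ∀ v : ℚ, (v = 0 ∨ ∃ r ∈ S, v = 1 / (r + 1)) →
      v ∈ insert 0 (S.image fun r : ℚ => 1 / (r + 1)) := by
    intro v hv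
    rcases hv with rfl | ⟨r, hr, rfl⟩
    · exact mem_insert_self _ _
    · exact mem_insert_of_mem (mem_image_of_mem _ hr)
  -- the largest projection
  obtain ⟨v, hv, hbig⟩ := big_le h0 B
  obtain ⟨j, hjk, hj⟩ := hcoord v hv
  have hbig' : big S B = ∏ b ∈ range K, g (j + b) := by
    rw [hbig, hsize v (hmem v hv) j hj]
  have hflat : ∀ v' : ℚ, (v' = 0 ∨ ∃ r ∈ S, v' = 1 / (r + 1)) →
      (big S B : ℝ) ≤ (B.card : ℝ) ^ η * (pu v' B).card := by
    intro v' hv'
    obtain ⟨j', hj'k, hj'⟩ := hcoord v' hv'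
    have h1 : big S B ≤ (Fintype.card T) ^ k * (pu v' B).card := by
      rw [hbig', hsize v' (hmem v' hv') j' hj']
      exact window' hg1 hgT j j' k K hjk hj'k
    have h2 : ((Fintype.card T : ℕ) : ℝ) ^ k ≤ (B.card : ℝ) ^ η := by
      rw [hBcard]
      push_cast
      rw [← Real.rpow_natCast, ← Real.rpow_natCast, ← Real.rpow_mul (Nat.cast_nonneg _)]
      apply Real.rpow_le_rpow_of_exponent_le
      · exact_mod_cast hTpos
      · rw [mul_comm]
        exact hKη
    calc (big S B : ℝ) ≤ ((Fintype.card T : ℕ) : ℝ) ^ k * (pu v' B).card := by exact_mod_cast h1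
      _ ≤ _ := mul_le_mul_of_nonneg_right h2 (Nat.cast_nonneg _)
  refine ⟨B, ⟨Φ (fun _ => Classical.arbitrary T), (hBmem _).2 ⟨_, rfl⟩⟩, ?_, ?_, ⟨?_, ?_⟩, ?_⟩
  · -- the differences
    intro x hx y hy hxy
    obtain ⟨w, rfl⟩ := (hBmem x).1 (mem_coe.1 hx)
    obtain ⟨w', rfl⟩ := (hBmem y).1 (mem_coe.1 hy)
    have h1 := (hΦ2 w w').1 hxy
    congr 1
    funext b
    apply Subtype.ext
    funext i
    apply Subtype.ext
    exact hinj ((w b).1 i).2 ((w' b).1 i).2 (h1 (b, i))
  · -- homogeneous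
    intro a ha b hb
    obtain ⟨w, rfl⟩ := (hBmem a).1 ha
    obtain ⟨w', rfl⟩ := (hBmem b).1 hb
    choose σ hσ using fun c : Fin K => exists_perm (w c) (w' c)
    set G : (Fin K → T) → (Fin K → T) := fun z c => permTC (σ c) (z c) with hG
    have hGval : ∀ z c i, (G z c).1 i = (z c).1 (σ c i) := fun z c i => rfl
    have hGinj : Function.Injective G := by
      intro z z' hz
      funext c
      apply Subtype.ext
      funext i
      have h1 : (G z c).1 ((σ c).symm i) = (G z' c).1 ((σ c).symm i) := by rw [hz]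
      rw [hGval, hGval, Equiv.apply_symm_apply] at h1
      exact h1
    have hGsurj : Function.Surjective G := Finite.surjective_of_injective hGinj
    have hGw : G w = w' := by
      funext c
      apply Subtype.ext
      funext i
      exact (hσ c i).symm
    have hinv : ∀ z, Function.invFun Φ (Φ z) = z := Function.leftInverse_invFun hΦinj
    refine ⟨fun x => Φ (G (Function.invFun Φ x)), ⟨?_, ?_, ?_⟩, ?_, ?_⟩
    · intro x _
      exact mem_coe.2 ((hBmem _).2 ⟨_, rfl⟩)
    · intro x hx y hy hxy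
      obtain ⟨z, rfl⟩ := (hBmem x).1 (mem_coe.1 hx)
      obtain ⟨z', rfl⟩ := (hBmem y).1 (mem_coe.1 hy)
      simp only [hinv] at hxy
      rw [hGinj (hΦinj hxy)]
    · intro x hx
      obtain ⟨z, rfl⟩ := (hBmem x).1 (mem_coe.1 hx)
      obtain ⟨z', rfl⟩ := hGsurj z
      refine ⟨Φ z', mem_coe.2 ((hBmem _).2 ⟨_, rfl⟩), ?_⟩
      simp only [hinv]
    · simp only [hinv, hGw]
    · -- the fibres
      intro x hx y hy
      obtain ⟨z, rfl⟩ := (hBmem x).1 hx
      obtain ⟨z', rfl⟩ := (hBmem y).1 hy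
      simp only [hinv]
      have key : ∀ v : ℚ, v ∈ insert 0 (S.image fun r : ℚ => 1 / (r + 1)) →
          (pr v (Φ z) = pr v (Φ z') ↔ pr v (Φ (G z)) = pr v (Φ (G z'))) := by
        intro v hv
        rw [hΦ1 v hv, hΦ1 v hv]
        simp only [hGval]
        constructor
        · intro h1 b
          exact h1 (b.1, σ b.1 b.2)
        · intro h1 b
          have h2 := h1 (b.1, (σ b.1).symm b.2)
          simp only [Equiv.apply_symm_apply] at h2
          exact h2
      refine ⟨?_, fun r hr => ?_⟩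
      · have h1 := key 0 (mem_insert_self _ _)
        rw [pr_zero, pr_zero, pr_zero, pr_zero] at h1
        exact_mod_cast h1
      · have hr1 : r ≠ -1 := fun h1 => h0 (h1 ▸ hr)
        have h1 := key (1 / (r + 1)) (mem_insert_of_mem (mem_image_of_mem _ hr))
        rw [slope_iff hr1, slope_iff hr1]
        exact h1
  · rw [card_projInf]
    exact hflat 0 (Or.inl rfl)
  · intro r hr
    have hr1 : r ≠ -1 := fun h1 => h0 (h1 ▸ hr)
    rw [card_proj hr1]
    exact hflat _ (Or.inr ⟨r, hr, rfl⟩)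
  · -- the inequality is violated
    have h1 : big S B ≤ (M ^ n) ^ K := by
      rw [hbig']
      calc ∏ b ∈ range K, g (j + b) ≤ ∏ _b ∈ range K, M ^ n := by
            refine prod_le_prod' fun b hb => hgM _ ?_
            have := mem_range.1 hb
            omega
        _ = (M ^ n) ^ K := by rw [prod_const, card_range]
    have hC'1 : 1 ≤ C' := le_max_right _ _
    have h2 : C' * ((M : ℝ) ^ κ) ^ n < Fintype.card T := by
      have h3 : (N : ℝ) ^ n ≤ ((n : ℝ) + 1) ^ N * Fintype.card T := by exact_mod_cast hτ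
      rw [hρ, div_pow, lt_div_iff₀ (by positivity)] at hn
      have h4 : C' * ((n : ℝ) + 1) ^ N * ((M : ℝ) ^ κ) ^ n < ((n : ℝ) + 1) ^ N * Fintype.card T :=
        hn.trans_le h3
      have h5 : ((n : ℝ) + 1) ^ N * (C' * ((M : ℝ) ^ κ) ^ n) < ((n : ℝ) + 1) ^ N * Fintype.card T := by
        calc ((n : ℝ) + 1) ^ N * (C' * ((M : ℝ) ^ κ) ^ n) =
            C' * ((n : ℝ) + 1) ^ N * ((M : ℝ) ^ κ) ^ n := by ring
          _ < _ := h4
      exact lt_of_mul_lt_mul_left h5 (by positivity)
    have h3 : (C' * ((M : ℝ) ^ κ) ^ n) ^ K < ((Fintype.card T : ℕ) : ℝ) ^ K :=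
      pow_lt_pow_left₀ h2 (by positivity) (by omega)
    have h4 : C * (big S B : ℝ) ^ κ ≤ (C' * ((M : ℝ) ^ κ) ^ n) ^ K := by
      have h5 : (big S B : ℝ) ^ κ ≤ (((M : ℝ) ^ κ) ^ n) ^ K := by
        calc (big S B : ℝ) ^ κ ≤ (((M ^ n) ^ K : ℕ) : ℝ) ^ κ :=
              Real.rpow_le_rpow (Nat.cast_nonneg _) (by exact_mod_cast h1) hκ
          _ = (((M : ℝ) ^ κ) ^ n) ^ K := by
              push_cast
              rw [← pow_mul, ← pow_mul, ← Real.rpow_natCast, ← Real.rpow_natCast,
                ← Real.rpow_mul (Nat.cast_nonneg _), ← Real.rpow_mul (Nat.cast_nonneg _), mul_comm]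
      calc C * (big S B : ℝ) ^ κ ≤ C' * (big S B : ℝ) ^ κ :=
            mul_le_mul_of_nonneg_right (le_max_left _ _) (Real.rpow_nonneg (Nat.cast_nonneg _) _)
        _ ≤ C' ^ K * (((M : ℝ) ^ κ) ^ n) ^ K := by
            refine mul_le_mul ?_ h5 (Real.rpow_nonneg (Nat.cast_nonneg _) _) (by positivity)
            exact le_self_pow₀ hC'1 (by omega)
        _ = _ := by rw [mul_pow]
    refine h4.trans_lt (h3.trans_eq ?_)
    rw [hBcard]
    push_cast
    rfl

end Pool.Agent.V7H22.AK
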