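import Mathlib
import Pool.Agent.V7H22.AK.Main
import Pool.Agent.TH404.AK.Sdc3

/-! # Almost all slopes of a progression; equivalent forms -/

set_option autoImplicit false

namespace Pool.Agent.V7H22.AK

open Finset

open Classical in
/-- almost all slopes of a long progression are good -/
theorem prog {κ : ℝ} (h : Attained κ) {θ : ℝ} (hθ : 0 < θ) : ∃ K0 : ℕ, 1 ≤ K0 ∧ ∀ K : ℕ, K0 ≤ K →
    ∀ a δ : ℚ, δ ≠ 0 → ∀ A : Finset (ℤ × ℤ),
      (((range K).filter fun b : ℕ => ((pu (a + δ * (b : ℚ)) A).card : ℝ) ^ κ <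
        (A.image df).card).card : ℝ) ≤ θ * K := by
  obtain ⟨k, hk⟩ := cube h
  obtain ⟨n, hn⟩ := hk k le_rfl (θ / 2) (by positivity)
  set L : ℕ := (k + 1) ^ n with hL
  have hL1 : 1 ≤ L := Nat.one_le_pow _ _ (Nat.succ_pos k)
  refine ⟨L, hL1, fun K hK a δ hδ A => ?_⟩
  set f : ℕ → ℕ := fun b => if ((pu (a + δ * (b : ℚ)) A).card : ℝ) ^ κ < (A.image df).card
    then 1 else 0 with hf
  have hblock : ∀ t : ℕ, ((∑ x ∈ range L, f (t * L + x) : ℕ) : ℝ) ≤ θ / 2 * L := by
    intro t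
    have h1 := hn n le_rfl (a + δ * ((t * L : ℕ) : ℚ)) (fun i => δ * (((k : ℚ) + 1) ^ (i : ℕ))) (by
      intro I hI
      rw [← mul_sum]
      refine mul_ne_zero hδ ?_
      have : (0 : ℚ) < ∑ i ∈ I, ((k : ℚ) + 1) ^ (i : ℕ) := sum_pos (fun i _ => by positivity) hI
      exact this.ne') A
    have h2 : (∑ x ∈ range L, f (t * L + x) : ℕ) =
        ((univ : Finset (Fin n → Fin (k + 1))).filter fun w =>
          ((pu (a + δ * ((t * L : ℕ) : ℚ) + ∑ i : Fin n, δ * (((k : ℚ) + 1) ^ (i : ℕ)) *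
            ((w i : ℕ) : ℚ)) A).card : ℝ) ^ κ < (A.image df).card).card := by
      rw [card_filter, ← Fin.sum_univ_eq_sum_range (fun x => f (t * L + x)) L,
        ← Equiv.sum_comp (finFunctionFinEquiv (m := k + 1) (n := n))]
      refine sum_congr rfl fun w _ => ?_
      rw [hf]
      simp only
      have e : a + δ * (((t * L + (finFunctionFinEquiv w : ℕ) : ℕ)) : ℚ) =
          a + δ * ((t * L : ℕ) : ℚ) + ∑ i : Fin n, δ * (((k : ℚ) + 1) ^ (i : ℕ)) * ((w i : ℕ) : ℚ) := by
        rw [finFunctionFinEquiv_apply_val]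
        push_cast
        rw [mul_add, ← add_assoc, mul_sum]
        congr 1
        refine sum_congr rfl fun i _ => ?_
        ring
      rw [e]
    rw [h2]
    refine h1.trans (le_of_eq ?_)
    rw [hL]
    push_cast
    rfl
  have htot : ∀ t : ℕ, ((∑ x ∈ range (t * L), f x : ℕ) : ℝ) ≤ t * (θ / 2 * L) := by
    intro t
    induction t with
    | zero => simp
    | succ t ih =>
      rw [Nat.succ_mul, sum_range_add]
      push_cast
      have := hblock t
      push_cast at this ih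
      linarith
  have h3 : ((range K).filter fun b : ℕ => ((pu (a + δ * (b : ℚ)) A).card : ℝ) ^ κ <
        (A.image df).card).card ≤ ∑ x ∈ range ((K / L + 1) * L), f x := by
    rw [card_filter]
    refine sum_le_sum_of_subset (range_subset_range.2 ?_)
    have := Nat.lt_div_mul_add (a := K) (b := L) (by omega)
    rw [Nat.succ_mul]
    exact this.le
  have h4 : (((K / L + 1 : ℕ) : ℝ)) * L ≤ 2 * K := by
    have : (K / L + 1) * L ≤ 2 * K := by
      have h5 := Nat.div_mul_le_self K L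
      rw [Nat.succ_mul]
      omega
    exact_mod_cast this
  calc _ ≤ ((∑ x ∈ range ((K / L + 1) * L), f x : ℕ) : ℝ) := by exact_mod_cast h3
    _ ≤ ((K / L + 1 : ℕ) : ℝ) * (θ / 2 * L) := htot _
    _ = θ / 2 * (((K / L + 1 : ℕ) : ℝ) * L) := by ring
    _ ≤ θ / 2 * (2 * K) := mul_le_mul_of_nonneg_left h4 (by positivity)
    _ = θ * K := by ring

/-- the conjecture -/
def Conjecture : Prop := ∀ ε : ℝ, 0 < ε → Attained (1 + ε)

/-- the slopes with the coordinates `0, ..., K - 1` -/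
theorem slopes (K : ℕ) : ∃ S : Finset ℚ, (-1 : ℚ) ∉ S ∧ ∀ A : Finset (ℤ × ℤ), ∀ b < K,
    (pu (b : ℚ) A).card ≤ big S A := by
  classical
  refine ⟨(range K).image fun b : ℕ => 1 / ((b : ℚ) + 1) - 1, ?_, fun A b hb => ?_⟩
  · rw [mem_image]
    rintro ⟨b, -, hb⟩
    have h1 : (0 : ℚ) < 1 / ((b : ℚ) + 1) := by positivity
    linarith
  · rcases Nat.eq_zero_or_pos b with rfl | hb0
    · rw [Nat.cast_zero, ← card_projInf]
      exact le_max_left _ _
    · have hmem : 1 / (((b - 1 : ℕ) : ℚ) + 1) - 1 ∈ (range K).image fun b : ℕ =>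
          1 / ((b : ℚ) + 1) - 1 := mem_image_of_mem _ (mem_range.2 (by omega))
      have e : (b : ℚ) = 1 / ((1 / (((b - 1 : ℕ) : ℚ) + 1) - 1) + 1) := by
        rw [sub_add_cancel, one_div_one_div, Nat.cast_sub hb0]
        push_cast
        ring
      have hne : 1 / (((b - 1 : ℕ) : ℚ) + 1) - 1 ≠ (-1 : ℚ) := by
        intro h
        have h1 : (0 : ℚ) < 1 / (((b - 1 : ℕ) : ℚ) + 1) := by positivity
        linarith
      rw [e, ← card_proj hne]
      exact (le_sup (f := fun r => (proj r A).card) hmem).trans (le_max_right _ _)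

/-- from the geometric mean to the maximum -/
theorem attained_of_mean {κ : ℝ} (hκ : 0 ≤ κ) {K : ℕ} (hK : 1 ≤ K)
    (h : ∀ A : Finset (ℤ × ℤ), ((A.image df).card : ℝ) ^ K ≤
      ((∏ b ∈ range K, (pu (b : ℚ) A).card : ℕ) : ℝ) ^ κ) : Attained κ := by
  obtain ⟨S, h0, hS⟩ := slopes K
  refine ⟨S, h0, fun A => ?_⟩
  rw [card_diff]
  have h1 : ∏ b ∈ range K, (pu (b : ℚ) A).card ≤ big S A ^ K := by
    calc ∏ b ∈ range K, (pu (b : ℚ) A).card ≤ ∏ _b ∈ range K, big S A :=
          prod_le_prod' fun b hb => hS A b (mem_range.1 hb)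
      _ = _ := by rw [prod_const, card_range]
  have h2 : ((A.image df).card : ℝ) ^ K ≤ ((big S A : ℝ) ^ κ) ^ K := by
    refine (h A).trans ?_
    calc ((∏ b ∈ range K, (pu (b : ℚ) A).card : ℕ) : ℝ) ^ κ ≤ ((big S A ^ K : ℕ) : ℝ) ^ κ :=
          Real.rpow_le_rpow (Nat.cast_nonneg _) (by exact_mod_cast h1) hκ
      _ = _ := by
          push_cast
          rw [← Real.rpow_natCast, ← Real.rpow_natCast, ← Real.rpow_mul (Nat.cast_nonneg _),
            ← Real.rpow_mul (Nat.cast_nonneg _), mul_comm]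
  exact le_of_pow_le_pow_left₀ (by omega) (Real.rpow_nonneg (Nat.cast_nonneg _) _) h2

open Classical in
/-- from almost all slopes to one slope -/
theorem attained_of_almost {κ : ℝ} (hκ : 0 ≤ κ) {K : ℕ} (hK : 1 ≤ K) {θ : ℝ} (hθ : θ < 1)
    (h : ∀ A : Finset (ℤ × ℤ), (((range K).filter fun b : ℕ => ((pu (b : ℚ) A).card : ℝ) ^ κ <
        (A.image df).card).card : ℝ) ≤ θ * K) : Attained κ := by
  obtain ⟨S, h0, hS⟩ := slopes K
  refine ⟨S, h0, fun A => ?_⟩
  rw [card_diff]
  by_contra hcon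
  push Not at hcon
  have h1 : ((range K).filter fun b : ℕ => ((pu (b : ℚ) A).card : ℝ) ^ κ <
        (A.image df).card) = range K := by
    refine filter_true_of_mem fun b hb => lt_of_le_of_lt ?_ hcon
    exact Real.rpow_le_rpow (Nat.cast_nonneg _) (by exact_mod_cast hS A b (mem_range.1 hb)) hκ
  have h2 := h A
  rw [h1, card_range] at h2
  have h3 : (0 : ℝ) < K := by exact_mod_cast hK
  nlinarith

/-- the known exponent -/
theorem attained_sdc : Attained 1.669587 := by
  obtain ⟨S, hS, h⟩ := Pool.Agent.TH404.AK.sdc3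
  refine ⟨S, hS, fun A => ?_⟩
  have h1 := h A
  have h2 : (1.669587 : ℝ) = 1669587 / 1000000 := by norm_num
  unfold big proj projInf
  rw [h2]
  push_cast
  exact h1

end Pool.Agent.V7H22.AK
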