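import Mathlib
import Pool.Agent.V7H22.AK.Prog

/-! # Almost all slopes of almost invariant sets -/

set_option autoImplicit false

namespace Pool.Agent.V7H22.AK

open Finset

/-- shifts of an almost invariant set -/
theorem shift_card {n : ℕ} (F : Finset ℚ) (c : Fin n → ℚ) {η : ℝ}
    (hF : ∀ i, ((F.filter fun x => x - c i ∉ F).card : ℝ) ≤ η * F.card) (w : Fin n → ℕ)
    (I : Finset (Fin n)) :
    ((F.filter fun x => x - ∑ i ∈ I, c i * (w i : ℚ) ∉ F).card : ℝ) ≤
      (∑ i ∈ I, (w i : ℝ)) * (η * F.card) := by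
  classical
  -- one direction
  have one : ∀ (z d : ℚ) (B D : ℝ), ((F.filter fun x => x - z ∉ F).card : ℝ) ≤ B →
      ((F.filter fun x => x - d ∉ F).card : ℝ) ≤ D →
      ((F.filter fun x => x - (z + d) ∉ F).card : ℝ) ≤ B + D := by
    intro z d B D h1 h2
    have h3 : (F.filter fun x => x - (z + d) ∉ F).card ≤
        (F.filter fun x => x - z ∉ F).card + (F.filter fun x => x - d ∉ F).card := by
      have h4 : (F.filter fun x => x - (z + d) ∉ F) ⊆ (F.filter fun x => x - z ∉ F) ∪
          (F.filter fun x => x - d ∉ F).image fun x => x + z := by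
        intro x hx
        obtain ⟨hx1, hx2⟩ := mem_filter.1 hx
        by_cases h5 : x - z ∈ F
        · refine mem_union_right _ (mem_image.2 ⟨x - z, mem_filter.2 ⟨h5, ?_⟩, by ring⟩)
          rwa [show x - z - d = x - (z + d) by ring]
        · exact mem_union_left _ (mem_filter.2 ⟨hx1, h5⟩)
      exact (card_le_card h4).trans ((card_union_le _ _).trans
        (Nat.add_le_add_left card_image_le _))
    have h6 : ((F.filter fun x => x - (z + d) ∉ F).card : ℝ) ≤
        ((F.filter fun x => x - z ∉ F).card : ℝ) + ((F.filter fun x => x - d ∉ F).card : ℝ) := by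
      exact_mod_cast h3
    linarith
  have many : ∀ (i : Fin n) (t : ℕ), ((F.filter fun x => x - c i * (t : ℚ) ∉ F).card : ℝ) ≤
      t * (η * F.card) := by
    intro i t
    induction t with
    | zero =>
      have : (F.filter fun x => x - c i * ((0 : ℕ) : ℚ) ∉ F) = ∅ := by
        refine filter_false_of_mem fun x hx => ?_
        rw [Nat.cast_zero, mul_zero, sub_zero]
        exact not_not.2 hx
      rw [this, card_empty]
      simp
    | succ t ih =>
      have h1 := one _ _ _ _ ih (hF i)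
      have e : c i * (((t + 1 : ℕ)) : ℚ) = c i * (t : ℚ) + c i := by push_cast; ring
      rw [e]
      refine h1.trans (le_of_eq ?_)
      push_cast
      ring
  induction I using Finset.induction_on with
  | empty =>
    have : (F.filter fun x => x - ∑ i ∈ (∅ : Finset (Fin n)), c i * (w i : ℚ) ∉ F) = ∅ := by
      refine filter_false_of_mem fun x hx => ?_
      rw [sum_empty, sub_zero]
      exact not_not.2 hx
    rw [this, card_empty]
    simp
  | insert i I hi ih =>
    rw [sum_insert hi, sum_insert hi, add_mul]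
    exact one _ _ _ _ (many i (w i)) ih

open Classical in
/-- almost all slopes of almost invariant sets -/
theorem folner {κ : ℝ} (h : Attained κ) {θ : ℝ} (hθ : 0 < θ) : ∃ (n : ℕ) (η : ℝ), 0 < η ∧
    ∀ (F : Finset ℚ) (c : Fin n → ℚ),
      (∀ I : Finset (Fin n), I.Nonempty → ∑ i ∈ I, c i ≠ 0) →
      (∀ i, ((F.filter fun x => x - c i ∉ F).card : ℝ) ≤ η * F.card) →
      ∀ A : Finset (ℤ × ℤ), ((F.filter fun u => ((pu u A).card : ℝ) ^ κ <
        (A.image df).card).card : ℝ) ≤ θ * F.card := by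
  obtain ⟨k, hk⟩ := cube h
  obtain ⟨n, hn⟩ := hk k le_rfl (θ / 2) (by positivity)
  refine ⟨n, θ / (2 * (k * n + 1)), by positivity, fun F c hc hF A => ?_⟩
  set η : ℝ := θ / (2 * (k * n + 1)) with hη
  set Bd : Finset ℚ := F.filter fun u => ((pu u A).card : ℝ) ^ κ < (A.image df).card with hBd
  -- the number of pairs
  set W : Finset (Fin n → Fin (k + 1)) := univ with hW
  have h1 : ∀ x : ℚ, ((W.filter fun w => ((pu (x + ∑ i, c i * ((w i : ℕ) : ℚ)) A).card : ℝ) ^ κ <
      (A.image df).card).card : ℝ) ≤ θ / 2 * ((k : ℝ) + 1) ^ n := fun x => hn n le_rfl x c hc A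
  have h2 : ∀ w ∈ W, (Bd.card : ℝ) ≤ ((F.filter fun x =>
      ((pu (x + ∑ i, c i * ((w i : ℕ) : ℚ)) A).card : ℝ) ^ κ < (A.image df).card).card : ℝ) +
        θ / 2 * F.card := by
    intro w _
    have h3 := shift_card F c hF (fun i => (w i : ℕ)) univ
    have h4 : (∑ i, (((w i : ℕ) : ℕ) : ℝ)) * (η * F.card) ≤ θ / 2 * F.card := by
      have h5 : (∑ i, (((w i : ℕ) : ℕ) : ℝ)) ≤ k * n := by
        calc (∑ i, (((w i : ℕ) : ℕ) : ℝ)) ≤ ∑ _i : Fin n, (k : ℝ) := by
              refine sum_le_sum fun i _ => ?_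
              have := (w i).2
              exact_mod_cast (by omega : (w i : ℕ) ≤ k)
          _ = k * n := by
              rw [sum_const, card_univ, Fintype.card_fin, nsmul_eq_mul]
              ring
      have h6 : (k * n : ℝ) * η ≤ θ / 2 := by
        rw [hη]
        rw [mul_div_assoc', div_le_div_iff₀ (by positivity) (by norm_num)]
        nlinarith
      have h7 : 0 ≤ η := by positivity
      have h8 : (0 : ℝ) ≤ F.card := Nat.cast_nonneg _
      calc (∑ i, (((w i : ℕ) : ℕ) : ℝ)) * (η * F.card) ≤ (k * n) * (η * F.card) :=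
            mul_le_mul_of_nonneg_right h5 (mul_nonneg h7 h8)
        _ = ((k * n : ℝ) * η) * F.card := by ring
        _ ≤ _ := mul_le_mul_of_nonneg_right h6 h8
    have h9 : Bd ⊆ ((F.filter fun x =>
        ((pu (x + ∑ i, c i * ((w i : ℕ) : ℚ)) A).card : ℝ) ^ κ < (A.image df).card).image
          fun x => x + ∑ i, c i * ((w i : ℕ) : ℚ)) ∪
        (F.filter fun x => x - ∑ i, c i * (((w i : ℕ) : ℕ) : ℚ) ∉ F) := by
      intro x hx
      obtain ⟨hx1, hx2⟩ := mem_filter.1 hx
      by_cases hx3 : x - ∑ i, c i * (((w i : ℕ) : ℕ) : ℚ) ∈ F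
      · refine mem_union_left _ (mem_image.2 ⟨x - ∑ i, c i * (((w i : ℕ) : ℕ) : ℚ),
          mem_filter.2 ⟨hx3, ?_⟩, by ring⟩)
        rwa [sub_add_cancel]
      · exact mem_union_right _ (mem_filter.2 ⟨hx1, hx3⟩)
    have h10 : Bd.card ≤ (F.filter fun x =>
        ((pu (x + ∑ i, c i * ((w i : ℕ) : ℚ)) A).card : ℝ) ^ κ < (A.image df).card).card +
        (F.filter fun x => x - ∑ i, c i * (((w i : ℕ) : ℕ) : ℚ) ∉ F).card :=
      (card_le_card h9).trans ((card_union_le _ _).trans
        (Nat.add_le_add_right card_image_le _))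
    have h11 : (Bd.card : ℝ) ≤ ((F.filter fun x =>
        ((pu (x + ∑ i, c i * ((w i : ℕ) : ℚ)) A).card : ℝ) ^ κ < (A.image df).card).card : ℝ) +
        ((F.filter fun x => x - ∑ i, c i * (((w i : ℕ) : ℕ) : ℚ) ∉ F).card : ℝ) := by
      exact_mod_cast h10
    linarith
  have hWc : (W.card : ℝ) = ((k : ℝ) + 1) ^ n := by
    rw [hW, card_univ, Fintype.card_fun, Fintype.card_fin, Fintype.card_fin]
    push_cast
    rfl
  have h3 : (W.card : ℝ) * Bd.card ≤ W.card * (θ * F.card) := by
    have h4 := sum_le_sum h2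
    rw [sum_const, nsmul_eq_mul, sum_add_distrib, sum_const, nsmul_eq_mul] at h4
    have h5 : ∑ w ∈ W, ((F.filter fun x => ((pu (x + ∑ i, c i * ((w i : ℕ) : ℚ)) A).card : ℝ) ^ κ <
        (A.image df).card).card : ℝ) = ∑ x ∈ F, ((W.filter fun w =>
        ((pu (x + ∑ i, c i * ((w i : ℕ) : ℚ)) A).card : ℝ) ^ κ < (A.image df).card).card : ℝ) := by
      simp only [card_filter]
      push_cast
      exact sum_comm
    have h6 : ∑ x ∈ F, ((W.filter fun w =>
        ((pu (x + ∑ i, c i * ((w i : ℕ) : ℚ)) A).card : ℝ) ^ κ < (A.image df).card).card : ℝ) ≤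
        F.card * (θ / 2 * ((k : ℝ) + 1) ^ n) := by
      calc _ ≤ ∑ _x ∈ F, θ / 2 * ((k : ℝ) + 1) ^ n := sum_le_sum fun x _ => h1 x
        _ = _ := by rw [sum_const, nsmul_eq_mul]
    rw [h5] at h4
    rw [← hWc] at h6
    nlinarith
  have hWpos : (0 : ℝ) < W.card := by
    rw [hWc]
    positivity
  exact le_of_mul_le_mul_left h3 hWpos

end Pool.Agent.V7H22.AK
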