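import Mathlib

/-! # Pencils of linear maps and the choice of coordinates -/

set_option autoImplicit false

namespace Pool.Agent.V7H22.AK

open Finset Module

/-- the eigenspaces for different eigenvalues are independent -/
theorem sum_eigen {K V : Type*} [Field K] [AddCommGroup V] [Module K V] [FiniteDimensional K V]
    (f : Module.End K V) (U : Finset K) :
    ∑ u : {u // u ∈ U}, finrank K (f.eigenspace (-u.1)) ≤ finrank K V := by
  classical
  have hind : iSupIndep fun u : {u // u ∈ U} => f.eigenspace (-u.1) :=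
    f.eigenspaces_iSupIndep.comp (f := fun u : {u // u ∈ U} => -u.1)
      (neg_injective.comp Subtype.val_injective)
  have h1 := LinearMap.finrank_le_finrank_of_injective
    (f := DFinsupp.lsum ℕ (M := fun u : {u // u ∈ U} => f.eigenspace (-u.1))
      fun u => (f.eigenspace (-u.1)).subtype) hind.dfinsupp_lsum_injective
  have h2 := Module.finrank_directSum K (fun u : {u // u ∈ U} => f.eigenspace (-u.1))
  exact h2.symm.le.trans h1

/-- in a pencil `Y + u D` one of the kernels is small -/
theorem ker_pencil {K V W : Type*} [Field K] [AddCommGroup V] [Module K V]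
    [FiniteDimensional K V] [AddCommGroup W] [Module K W] (Y D : V →ₗ[K] W) {s : ℕ}
    (hs : finrank K (LinearMap.ker D) ≤ s) (U : Finset K) (hU : U.Nonempty) :
    ∃ u ∈ U, U.card * (finrank K (LinearMap.ker (Y + u • D)) - s) ≤ finrank K V := by
  classical
  obtain ⟨C, hC⟩ := Submodule.exists_isCompl (LinearMap.ker D)
  have hinj : LinearMap.ker (D.comp C.subtype) = ⊥ := by
    rw [LinearMap.ker_eq_bot']
    intro x hx
    have h1 : (x : V) ∈ LinearMap.ker D ⊓ C := ⟨hx, x.2⟩
    rw [hC.inf_eq_bot] at h1
    exact Subtype.ext h1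
  obtain ⟨Q, hQ⟩ := LinearMap.exists_leftInverse_of_injective _ hinj
  set f : Module.End K C := (Q.comp Y).comp C.subtype with hf
  have hfin : finrank K (LinearMap.ker D) + finrank K C = finrank K V :=
    Submodule.finrank_add_eq_of_isCompl hC
  have hle : ∀ u : K, finrank K (LinearMap.ker (Y + u • D)) - s ≤
      finrank K (f.eigenspace (-u)) := by
    intro u
    have h1 : Submodule.comap C.subtype (LinearMap.ker (Y + u • D)) ≤ f.eigenspace (-u) := by
      intro x hx
      rw [Submodule.mem_comap, LinearMap.mem_ker, LinearMap.add_apply, LinearMap.smul_apply] at hx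
      rw [Module.End.mem_eigenspace_iff]
      have h2 : Y (C.subtype x) = -(u • D (C.subtype x)) := eq_neg_of_add_eq_zero_left hx
      have h3 : Q (D (C.subtype x)) = x := LinearMap.congr_fun hQ x
      change Q (Y (C.subtype x)) = (-u) • x
      rw [h2, map_neg, map_smul, h3, neg_smul]
    have h2 := Submodule.finrank_mono h1
    have h3 : finrank K (Submodule.comap C.subtype (LinearMap.ker (Y + u • D))) =
        finrank K ((C ⊓ LinearMap.ker (Y + u • D) : Submodule K V)) := by
      rw [← Submodule.map_comap_subtype, Submodule.finrank_map_subtype_eq]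
    have h4 := Submodule.finrank_sup_add_finrank_inf_eq C (LinearMap.ker (Y + u • D))
    have h5 := Submodule.finrank_le (C ⊔ LinearMap.ker (Y + u • D))
    omega
  have hsum := sum_eigen f U
  by_contra hcon
  push Not at hcon
  have h3 : ∀ u : {u // u ∈ U}, finrank K V < U.card * finrank K (f.eigenspace (-u.1)) := by
    intro u
    exact (hcon u.1 u.2).trans_le (Nat.mul_le_mul_left _ (hle u.1))
  obtain ⟨u0, hu0⟩ := hU
  have : Nonempty {u // u ∈ U} := ⟨⟨u0, hu0⟩⟩
  have h4 : ∑ _u : {u // u ∈ U}, finrank K V < ∑ u : {u // u ∈ U},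
      U.card * finrank K (f.eigenspace (-u.1)) :=
    sum_lt_sum_of_nonempty univ_nonempty fun u _ => h3 u
  rw [sum_const, smul_eq_mul, ← mul_sum, card_univ, Fintype.card_coe] at h4
  have h5 : finrank K C ≤ finrank K V := Submodule.finrank_le C
  exact absurd (Nat.mul_le_mul_left U.card (hsum.trans h5)) (not_le.2 h4)

/-- few coordinates suffice on a subspace -/
theorem exists_coord {K : Type*} [Field K] {m h : ℕ} (N : Submodule K (Fin m ⊕ Fin h → K))
    (hN : ∀ w ∈ N, (∀ j, w (Sum.inl j) = 0) → w = 0) : ∃ b : Finset (Fin m),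
    b.card ≤ finrank K N ∧ ∀ w ∈ N, (∀ j ∈ b, w (Sum.inl j) = 0) → w = 0 := by
  classical
  set v : Fin m → Module.Dual K N := fun j =>
    (LinearMap.proj (Sum.inl j) : (Fin m ⊕ Fin h → K) →ₗ[K] K).comp N.subtype with hv
  obtain ⟨b, -, -, hs, hi⟩ := exists_linearIndepOn_extension (K := K) (v := v)
    (s := ∅) (t := Set.univ) (linearIndepOn_empty K _) (Set.empty_subset _)
  have : Fintype b := Fintype.ofFinite _
  refine ⟨b.toFinset, ?_, fun w hw hb => hN w hw fun j => ?_⟩
  · have h1 := LinearIndependent.fintype_card_le_finrank (R := K) (b := fun t : b => v t) hi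
    rw [Subspace.dual_finrank_eq] at h1
    rw [Set.toFinset_card]
    exact h1
  · have h1 : v j ∈ Submodule.span K (v '' b) := hs ⟨j, Set.mem_univ _, rfl⟩
    have h2 : Submodule.span K (v '' b) ≤
        LinearMap.ker (Module.Dual.eval K N ⟨w, hw⟩) := by
      rw [Submodule.span_le]
      rintro _ ⟨l, hl, rfl⟩
      rw [SetLike.mem_coe, LinearMap.mem_ker, Module.Dual.eval_apply]
      exact hb l (by rw [Set.mem_toFinset]; exact hl)
    have h3 := h2 h1
    rw [LinearMap.mem_ker, Module.Dual.eval_apply] at h3
    exact h3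

end Pool.Agent.V7H22.AK
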