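import Mathlib
import Pool.Agent.V7H22.AK.Bez

/-! # Bezout's inequality for unramified zeros of overdetermined systems -/

set_option autoImplicit false

namespace Pool.Agent.V7H22.AK

open Finset MvPolynomial

/-- generic combinations of the rows of finitely many injective matrices are invertible -/
theorem exists_combination {K : Type*} [Field K] [Infinite K] {ι κ τ : Type*} [Fintype ι]
    [DecidableEq ι] [Fintype κ] (Z : Finset τ) (J : τ → κ → ι → K)
    (hJ : ∀ z ∈ Z, ∀ w : ι → K, (∀ k, ∑ j, J z k j * w j = 0) → w = 0) :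
    ∃ lam : ι → κ → K, ∀ z ∈ Z,
      (Matrix.of fun i j => ∑ k, lam i k * J z k j : Matrix ι ι K).det ≠ 0 := by
  classical
  -- left inverses
  have h1 : ∀ z ∈ Z, ∃ B : ι → κ → K, ∀ i j, ∑ k, B i k * J z k j = if i = j then 1 else 0 := by
    intro z hz
    have hinj : LinearMap.ker (Matrix.toLin' (Matrix.of (J z))) = ⊥ := by
      rw [LinearMap.ker_eq_bot']
      intro w hw
      exact hJ z hz w fun k => congrFun hw k
    obtain ⟨g, hg⟩ := LinearMap.exists_leftInverse_of_injective _ hinj
    refine ⟨fun i k => LinearMap.toMatrix' g i k, fun i j => ?_⟩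
    have h2 := congrArg LinearMap.toMatrix' hg
    rw [LinearMap.toMatrix'_comp, LinearMap.toMatrix'_toLin', LinearMap.toMatrix'_id] at h2
    have h3 := congrFun (congrFun h2 i) j
    rw [Matrix.mul_apply, Matrix.one_apply] at h3
    exact h3
  -- the determinants as polynomials
  set P : τ → MvPolynomial (ι × κ) K := fun z =>
    (Matrix.of fun i j => ∑ k, X (i, k) * C (J z k j) :
      Matrix ι ι (MvPolynomial (ι × κ) K)).det with hP
  have hev : ∀ (x : ι × κ → K) (z : τ), eval x (P z) =
      (Matrix.of fun i j => ∑ k, x (i, k) * J z k j : Matrix ι ι K).det := by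
    intro x z
    refine (RingHom.map_det (eval x) _).trans (congrArg Matrix.det ?_)
    refine Matrix.ext fun i j => ?_
    rw [RingHom.mapMatrix_apply, Matrix.map_apply, Matrix.of_apply, Matrix.of_apply, map_sum]
    refine sum_congr rfl fun k _ => ?_
    rw [map_mul, eval_C, eval_X]
  have hne : ∏ z ∈ Z, P z ≠ 0 := by
    rw [prod_ne_zero_iff]
    intro z hz h0
    obtain ⟨B, hB⟩ := h1 z hz
    have h2 := hev (fun x => B x.1 x.2) z
    have h3 : (Matrix.of fun i j => ∑ k, B i k * J z k j : Matrix ι ι K) = 1 := by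
      refine Matrix.ext fun i j => ?_
      rw [Matrix.of_apply, hB i j, Matrix.one_apply]
    rw [h0, map_zero, h3, Matrix.det_one] at h2
    exact zero_ne_one h2
  obtain ⟨x, hx⟩ : ∃ x : ι × κ → K, eval x (∏ z ∈ Z, P z) ≠ 0 := by
    by_contra hcon
    push Not at hcon
    exact hne (MvPolynomial.funext fun x => by rw [hcon x, map_zero])
  refine ⟨fun i j => x (i, j), fun z hz h0 => hx ?_⟩
  rw [map_prod]
  exact prod_eq_zero hz ((hev x z).trans h0)

/-- **Bezout's inequality for unramified zeros** -/
theorem bezout_over {K : Type*} [Field K] [Infinite K] {ι κ : Type*} [Fintype ι] [Fintype κ]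
    (G : κ → MvPolynomial ι K) {r : ℕ} (hr1 : 1 ≤ r) (hr : ∀ i, (G i).totalDegree ≤ r)
    (Z : Finset (ι → K)) (hG : ∀ z ∈ Z, ∀ i, eval z (G i) = 0)
    (hinj : ∀ z ∈ Z, ∀ w : ι → K, (∀ i, ∑ j, eval z (pderiv j (G i)) * w j = 0) → w = 0) :
    Z.card ≤ r ^ (Fintype.card ι) := by
  classical
  obtain ⟨lam, hlam⟩ := exists_combination Z (fun z i j => eval z (pderiv j (G i))) hinj
  have h1 := bezout (K := K) (ι := ι) (κ := ι) rfl (fun i => ∑ k, C (lam i k) * G k) (fun _ => r)
    (fun _ => hr1)
    (fun i => (totalDegree_finsetSum _ _).trans (Finset.sup_le fun k _ =>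
      (totalDegree_mul _ _).trans (by rw [totalDegree_C, zero_add]; exact hr k)))
    Z
    (by
      intro z hz i
      rw [map_sum]
      refine sum_eq_zero fun k _ => ?_
      rw [map_mul, hG z hz k, mul_zero])
    (by
      intro z hz v
      set N : Matrix ι ι K := Matrix.of fun i j => ∑ k, lam i k * eval z (pderiv j (G k)) with hN
      have hu : IsUnit N.det := isUnit_iff_ne_zero.2 (hlam z hz)
      refine ⟨N⁻¹.mulVec v, fun i => ?_⟩
      have h2 : N.mulVec (N⁻¹.mulVec v) = v := by
        rw [Matrix.mulVec_mulVec, Matrix.mul_nonsing_inv N hu, Matrix.one_mulVec]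
      have h3 : ∀ j, eval z (pderiv j (∑ k, C (lam i k) * G k)) = N i j := by
        intro j
        rw [map_sum, map_sum, hN, Matrix.of_apply]
        refine sum_congr rfl fun k _ => ?_
        rw [pderiv_C_mul, map_mul, eval_C]
      rw [sum_congr rfl fun j _ => by rw [h3 j]]
      exact congrFun h2 i)
  rw [prod_const, card_univ] at h1
  exact h1

end Pool.Agent.V7H22.AK
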