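import Mathlib
import Pool.Agent.V7H22.AK.Over
import Pool.Agent.V7H22.AK.Lin

/-! # Projections of sets of values of algebraic functions -/

set_option autoImplicit false

namespace Pool.Agent.V7H22.AK

open Finset MvPolynomial Module

variable {K : Type*} [Field K] {m n q h : ℕ}

/-- the differential at the point `t` -/
noncomputable def dlin {ι κ : Type*} [Fintype ι] (F : κ → MvPolynomial ι K) (t : ι → K) :
    (ι → K) →ₗ[K] (κ → K) where
  toFun w i := ∑ j, eval t (pderiv j (F i)) * w j
  map_add' v w := by
    funext i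
    simp only [Pi.add_apply, mul_add, sum_add_distrib]
  map_smul' c w := by
    funext i
    simp only [Pi.smul_apply, smul_eq_mul, RingHom.id_apply, mul_sum]
    exact sum_congr rfl fun j _ => by ring

theorem dlin_apply {ι κ : Type*} [Fintype ι] (F : κ → MvPolynomial ι K) (t w : ι → K) (i : κ) :
    dlin F t w i = ∑ j, eval t (pderiv j (F i)) * w j := rfl

theorem finrank_comap {V : Type*} [AddCommGroup V] [Module K V] (p q : Submodule K V) :
    finrank K (Submodule.comap p.subtype q) = finrank K ((p ⊓ q : Submodule K V)) := by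
  rw [← Submodule.map_comap_subtype, Submodule.finrank_map_subtype_eq]

/-- the good coordinates at a point -/
theorem exists_good (H : Fin n → MvPolynomial (Fin m ⊕ Fin h) K)
    (Y D : Fin q → MvPolynomial (Fin m ⊕ Fin h) K) (t : Fin m ⊕ Fin h → K) {s : ℕ}
    (hun : ∀ w, dlin H t w = 0 → (∀ j, w (Sum.inl j) = 0) → w = 0)
    (hker : finrank K ((LinearMap.ker (dlin H t) ⊓ LinearMap.ker (dlin D t) :
      Submodule K (Fin m ⊕ Fin h → K))) ≤ s) (U : Finset K) (hU : U.Nonempty) :
    ∃ u ∈ U, ∃ b : Finset (Fin m), b.card ≤ s + m / U.card ∧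
      ∀ w, dlin H t w = 0 → dlin Y t w + u • dlin D t w = 0 → (∀ j ∈ b, w (Sum.inl j) = 0) →
        w = 0 := by
  classical
  set V := LinearMap.ker (dlin H t) with hV
  obtain ⟨u, hu, hdim⟩ := ker_pencil ((dlin Y t).comp V.subtype) ((dlin D t).comp V.subtype)
    (s := s) (by
      rw [LinearMap.ker_comp, finrank_comap]
      exact hker) U hU
  have hVm : finrank K V ≤ m := by
    set f : V →ₗ[K] (Fin m → K) :=
      (LinearMap.pi fun j => (LinearMap.proj (Sum.inl j) :
        (Fin m ⊕ Fin h → K) →ₗ[K] K)).comp V.subtype with hf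
    have h1 : Function.Injective f := by
      rw [injective_iff_map_eq_zero]
      intro w hw
      refine Subtype.ext (hun w.1 w.2 fun j => ?_)
      exact congrFun hw j
    have h2 := LinearMap.finrank_le_finrank_of_injective h1
    rwa [Module.finrank_fin_fun] at h2
  set N := V ⊓ LinearMap.ker (dlin Y t + u • dlin D t) with hN
  have hNd : finrank K N = finrank K (LinearMap.ker ((dlin Y t).comp V.subtype +
      u • (dlin D t).comp V.subtype)) := by
    rw [hN, ← finrank_comap, ← LinearMap.ker_comp, LinearMap.add_comp, LinearMap.smul_comp]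
  obtain ⟨b, hb, hbN⟩ := exists_coord N fun w hw h0 => hun w hw.1 h0
  refine ⟨u, hu, b, ?_, fun w h1 h2 h3 => hbN w ⟨h1, ?_⟩ h3⟩
  · have h4 : finrank K N - s ≤ m / U.card := by
      rw [Nat.le_div_iff_mul_le (card_pos.2 hU), mul_comm, hNd]
      exact hdim.trans hVm
    omega
  · rw [SetLike.mem_coe, LinearMap.mem_ker, LinearMap.add_apply, LinearMap.smul_apply]
    exact h2

/-- **projections of sets of values of algebraic functions** -/
theorem count_gen [Infinite K] [DecidableEq K] (U : Finset K) (hU : U.Nonempty) (r s W N : ℕ)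
    (hr : 1 ≤ r) (T : Finset (Fin m ⊕ Fin h → K)) (Y D : Fin q → MvPolynomial (Fin m ⊕ Fin h) K)
    (H : Fin n → MvPolynomial (Fin m ⊕ Fin h) K) (hY : ∀ i, (Y i).totalDegree ≤ r)
    (hD : ∀ i, (D i).totalDegree ≤ r) (hH : ∀ i, (H i).totalDegree ≤ r)
    (hzero : ∀ t ∈ T, ∀ i, eval t (H i) = 0)
    (hun : ∀ t ∈ T, ∀ w, dlin H t w = 0 → (∀ j, w (Sum.inl j) = 0) → w = 0)
    (hker : ∀ t ∈ T, finrank K ((LinearMap.ker (dlin H t) ⊓ LinearMap.ker (dlin D t) :
      Submodule K (Fin m ⊕ Fin h → K))) ≤ s)
    (hW : ∀ J : Finset (Fin m), J.card ≤ s + m / U.card →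
      (T.image fun t => fun j : J => t (Sum.inl j.1)).card ≤ W)
    (hN : ∀ u ∈ U, (T.image fun t => fun i => eval t (Y i) + u * eval t (D i)).card ≤ N) :
    T.card ≤ U.card * 2 ^ m * r ^ (m + h) * W * N := by
  classical
  have hgood : ∀ t ∈ T, ∃ ub : K × Finset (Fin m), ub.1 ∈ U ∧ ub.2.card ≤ s + m / U.card ∧
      ∀ w, dlin H t w = 0 → dlin Y t w + ub.1 • dlin D t w = 0 →
        (∀ j ∈ ub.2, w (Sum.inl j) = 0) → w = 0 := by
    intro t ht
    obtain ⟨u, hu, b, h⟩ := exists_good H Y D t (hun t ht) (hker t ht) U hU
    exact ⟨(u, b), hu, h⟩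
  choose! f hf1 hf2 hf3 using hgood
  have hmain : ∀ ub ∈ U ×ˢ (univ : Finset (Finset (Fin m))),
      (T.filter fun t => f t = ub).card ≤ r ^ (m + h) * (N * W) := by
    rintro ⟨u, b⟩ hub
    set T' := T.filter fun t => f t = (u, b) with hT'
    rcases T'.eq_empty_or_nonempty with hem | ⟨t0, ht0⟩
    · rw [hem, card_empty]
      exact Nat.zero_le _
    have ht0' := mem_filter.1 ht0
    have hbr : b.card ≤ s + m / U.card := by
      have := hf2 t0 ht0'.1
      rwa [ht0'.2] at this
    have hu : u ∈ U := (mem_product.1 hub).1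
    -- the coordinates
    set Ψ : (Fin m ⊕ Fin h → K) → (Fin q → K) × ({j // j ∈ b} → K) :=
      fun t => (fun i => eval t (Y i) + u * eval t (D i), fun j => t (Sum.inl j.1)) with hΨ
    have hfib : ∀ ψ ∈ T'.image Ψ, (T'.filter fun t => Ψ t = ψ).card ≤ r ^ (m + h) := by
      intro ψ _
      have h1 := bezout_over (K := K) (ι := Fin m ⊕ Fin h)
        (κ := Fin n ⊕ (Fin q ⊕ {j // j ∈ b}))
        (Sum.elim H (Sum.elim (fun i => Y i + C u * D i - C (ψ.1 i))
          (fun j => X (Sum.inl j.1) - C (ψ.2 j)))) hr
        (by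
          rintro (i | i | j)
          · exact hH i
          · simp only [Sum.elim_inr, Sum.elim_inl]
            refine (totalDegree_sub_C_le _ _).trans
              ((totalDegree_add _ _).trans (max_le (hY i) ?_))
            refine (totalDegree_mul _ _).trans ?_
            rw [totalDegree_C, zero_add]
            exact hD i
          · simp only [Sum.elim_inr]
            refine (totalDegree_sub_C_le _ _).trans ?_
            rw [totalDegree_X]
            exact hr)
        (T'.filter fun t => Ψ t = ψ)
        (by
          intro t ht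
          rw [mem_filter, hT', mem_filter] at ht
          rintro (i | i | j)
          · exact hzero t ht.1.1 i
          · rw [Sum.elim_inr, Sum.elim_inl, map_sub, eval_C, ← ht.2, map_add, map_mul, eval_C]
            exact sub_self _
          · rw [Sum.elim_inr, Sum.elim_inr, map_sub, eval_C, ← ht.2, eval_X]
            exact sub_self _)
        (by
          intro t ht w hw
          rw [mem_filter, hT', mem_filter] at ht
          have h2 := hf3 t ht.1.1
          rw [ht.1.2] at h2
          refine h2 w ?_ ?_ fun j hj => ?_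
          · funext i
            exact hw (Sum.inl i)
          · funext i
            have h3 := hw (Sum.inr (Sum.inl i))
            simp only [Sum.elim_inr, Sum.elim_inl, map_sub, pderiv_C, sub_zero, map_add,
              pderiv_C_mul, map_mul, eval_C, add_mul, sum_add_distrib] at h3
            rw [Pi.add_apply, Pi.smul_apply, dlin_apply, dlin_apply, smul_eq_mul, mul_sum,
              Pi.zero_apply, ← h3]
            congr 1
            exact sum_congr rfl fun j _ => by ring
          · have h3 := hw (Sum.inr (Sum.inr ⟨j, hj⟩))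
            rw [← h3]
            have h4 : ∀ l, eval t (pderiv l ((Sum.elim H (Sum.elim
                (fun i => Y i + C u * D i - C (ψ.1 i)) (fun j : {j // j ∈ b} =>
                  X (Sum.inl j.1) - C (ψ.2 j)))) (Sum.inr (Sum.inr ⟨j, hj⟩)))) * w l =
                if Sum.inl j = l then w (Sum.inl j) else 0 := by
              intro l
              simp only [Sum.elim_inr, map_sub, pderiv_C, sub_zero, pderiv_X]
              by_cases hlj : Sum.inl j = l
              · subst hlj
                simp
              · rw [if_neg hlj, Pi.single_eq_of_ne (fun h => hlj h), map_zero, zero_mul]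
            rw [sum_congr rfl fun l _ => h4 l, sum_ite_eq]
            simp)
      rw [Fintype.card_sum, Fintype.card_fin, Fintype.card_fin] at h1
      exact h1
    have himg : (T'.image Ψ).card ≤ N * W := by
      have h2 : T'.image Ψ ⊆ (T.image fun t => fun i => eval t (Y i) + u * eval t (D i)) ×ˢ
          (T.image fun t => fun j : {j // j ∈ b} => t (Sum.inl j.1)) := by
        intro x hx
        obtain ⟨t, ht, rfl⟩ := mem_image.1 hx
        rw [hT', mem_filter] at ht
        rw [mem_product]
        exact ⟨mem_image_of_mem (fun t => fun i => eval t (Y i) + u * eval t (D i)) ht.1,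
          mem_image_of_mem (fun t : Fin m ⊕ Fin h → K => fun j : {j // j ∈ b} =>
            t (Sum.inl j.1)) ht.1⟩
      refine (card_le_card h2).trans ?_
      rw [card_product]
      exact Nat.mul_le_mul (hN u hu) (hW b hbr)
    exact (card_le_mul_card_image T' _ hfib).trans (Nat.mul_le_mul_left _ himg)
  have h1 := card_le_mul_card_image_of_maps_to (f := f)
    (t := U ×ˢ (univ : Finset (Finset (Fin m))))
    (fun p hp => mem_product.2 ⟨hf1 p hp, mem_univ _⟩) _ hmain
  refine h1.trans (le_of_eq ?_)
  rw [card_product, card_univ, Fintype.card_finset, Fintype.card_fin]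
  ring

end Pool.Agent.V7H22.AK
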