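import Mathlib
import Pool.Agent.V7H22.AK.Main

/-! # The multinomial form -/

set_option autoImplicit false

namespace Pool.Agent.V7H22.AK

open Finset

/-- the number of different rearrangements of a vector -/
def perms {N : ℕ} (v : Fin N → ℚ) : ℕ :=
  ((univ : Finset (Equiv.Perm (Fin N))).image fun σ => fun i => v (σ i)).card

/-- the inequality for the numbers of rearrangements -/
def MultBound (S : Finset ℚ) (κ : ℝ) : Prop :=
  ∀ (N : ℕ) (X Y : Fin N → ℤ), (perms (fun i => (X i : ℚ) - Y i) : ℝ) ≤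
    ((max (perms fun i => (Y i : ℚ)) (S.sup fun r => perms fun i => (X i : ℚ) + r * Y i) : ℕ) : ℝ)
      ^ κ

theorem mult_of_bound {S : Finset ℚ} {κ : ℝ} (hκ : 0 ≤ κ) (h0 : (-1 : ℚ) ∉ S) (h : Bound S κ) :
    MultBound S κ := by
  classical
  intro N X Y
  obtain ⟨Φ, h1, h2⟩ := realise (Ω := Equiv.Perm (Fin N)) (ι := Fin N)
    (fun σ i => (Y (σ i) : ℚ)) (fun σ i => (X (σ i) : ℚ) - Y (σ i))
    (insert 0 (S.image fun r => 1 / (r + 1)))
  set B : Finset (ℤ × ℤ) := univ.image Φ with hB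
  have hd : (B.image df).card = perms (fun i => (X i : ℚ) - Y i) := by
    rw [hB, image_image]
    exact card_image_congr univ _ _ fun p _ q _ => h2 p q
  have hu : ∀ u ∈ insert 0 (S.image fun r : ℚ => 1 / (r + 1)), (pu u B).card =
      perms (fun i => (Y i : ℚ) + u * ((X i : ℚ) - Y i)) := by
    intro u hu
    unfold pu
    rw [hB, image_image]
    exact card_image_congr univ _ _ fun p _ q _ => h1 u hu p q
  obtain ⟨u, hu0, hbig⟩ := big_le h0 B
  have h3 := h B
  rw [card_diff, hd] at h3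
  refine h3.trans (Real.rpow_le_rpow (Nat.cast_nonneg _) ?_ hκ)
  rw [hbig]
  have h4 : (pu u B).card ≤ max (perms fun i => (Y i : ℚ))
      (S.sup fun r => perms fun i => (X i : ℚ) + r * Y i) := by
    rcases hu0 with rfl | ⟨r, hr, rfl⟩
    · rw [hu 0 (mem_insert_self _ _)]
      simp only [zero_mul, add_zero]
      exact le_max_left _ _
    · rw [hu _ (mem_insert_of_mem (mem_image_of_mem _ hr))]
      refine le_trans (le_of_eq ?_) ((le_sup (f := fun r => perms fun i => (X i : ℚ) + r * Y i)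
        hr).trans (le_max_right _ _))
      have hr1 : r + 1 ≠ 0 := by
        intro h
        apply h0
        have : r = -1 := by linarith
        rwa [this] at hr
      unfold perms
      refine card_image_congr univ _ _ fun p _ q _ => ?_
      rw [funext_iff, funext_iff]
      refine forall_congr' fun i => ?_
      have e : ∀ j : Fin N, (X j : ℚ) + r * Y j =
          (r + 1) * ((Y j : ℚ) + 1 / (r + 1) * ((X j : ℚ) - Y j)) := by
        intro j
        field_simp
        ring
      change ((Y (p i) : ℚ) + 1 / (r + 1) * ((X (p i) : ℚ) - Y (p i)) =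
        (Y (q i) : ℚ) + 1 / (r + 1) * ((X (q i) : ℚ) - Y (q i))) ↔
        ((X (p i) : ℚ) + r * Y (p i) = (X (q i) : ℚ) + r * Y (q i))
      rw [e, e]
      exact ⟨fun h => by rw [h], fun h => mul_left_cancel₀ hr1 h⟩
  exact_mod_cast h4

theorem bound_of_mult {S : Finset ℚ} {κ : ℝ} (hκ : 0 ≤ κ) (h : MultBound S κ) : Bound S κ := by
  classical
  intro A0
  by_contra hcon
  push Not at hcon
  obtain ⟨A, hAA, hinj, him⟩ := exists_sub A0
  have hcard : (proj (-1) A0).card = A.card := by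
    rw [card_diff, ← him, card_image_of_injOn hinj]
  rw [hcard] at hcon
  set M : ℕ := big S A0 with hM
  set N : ℕ := A.card with hN
  have hne : A.Nonempty := by
    rw [← card_pos]
    have : (0 : ℝ) < A.card := lt_of_le_of_lt (Real.rpow_nonneg (Nat.cast_nonneg _) _) hcon
    exact_mod_cast this
  have hM1 : 1 ≤ M := ((hne.mono hAA).image _).card_pos.trans_le (le_max_left _ _)
  have hMκ : 0 < (M : ℝ) ^ κ := Real.rpow_pos_of_pos (by exact_mod_cast hM1) _
  set ρ : ℝ := (N : ℝ) / (M : ℝ) ^ κ with hρ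
  have hρ1 : 1 < ρ := by
    rw [hρ, one_lt_div hMκ]
    exact hcon
  obtain ⟨n, hn1, hn⟩ := exists_pow hρ1 1 N
  obtain ⟨τ, hτ⟩ := exists_tau (α := {x // x ∈ A}) n
  rw [Fintype.card_coe, ← hN] at hτ
  haveI : Fintype (TC (α := {x // x ∈ A}) n τ) := Fintype.ofFinite _
  rw [Nat.card_eq_fintype_card] at hτ
  have hNpos : 0 < N := hne.card_pos
  have hTpos : 0 < Fintype.card (TC (α := {x // x ∈ A}) n τ) := by
    rcases Nat.eq_zero_or_pos (Fintype.card (TC (α := {x // x ∈ A}) n τ)) with h1 | h1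
    · rw [h1, mul_zero] at hτ
      exact absurd hτ (not_le.2 (pow_pos hNpos n))
    · exact h1
  obtain ⟨w0⟩ : Nonempty (TC (α := {x // x ∈ A}) n τ) := Fintype.card_pos_iff.1 hTpos
  have h1 := h n (fun i => ((w0.1 i).1).1) (fun i => ((w0.1 i).1).2)
  -- the differences
  have h2 : Fintype.card (TC (α := {x // x ∈ A}) n τ) ≤
      perms (fun i => ((((w0.1 i).1).1 : ℤ) : ℚ) - (((w0.1 i).1).2 : ℤ)) := by
    rw [← card_univ]
    unfold perms
    apply card_le_card_of_injOn (fun w => fun i => ((((w.1 i).1).1 : ℤ) : ℚ) - (((w.1 i).1).2 : ℤ))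
    · intro w _
      obtain ⟨σ, hσ⟩ := exists_perm w0 w
      refine mem_coe.2 (mem_image.2 ⟨σ, mem_univ _, ?_⟩)
      funext i
      exact congrArg (fun t : {x // x ∈ A} => ((t.1.1 : ℤ) : ℚ) - (t.1.2 : ℤ)) (hσ i).symm
    · intro w _ w' _ hww
      apply Subtype.ext
      funext i
      apply Subtype.ext
      refine hinj (w.1 i).2 (w'.1 i).2 ?_
      have h3 := congrFun hww i
      simp only at h3
      unfold df
      exact_mod_cast h3
  -- the projections
  have h3 : max (perms fun i => ((((w0.1 i).1).2 : ℤ) : ℚ))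
      (S.sup fun r => perms fun i => ((((w0.1 i).1).1 : ℤ) : ℚ) + r * (((w0.1 i).1).2 : ℤ)) ≤
        M ^ n := by
    have key : ∀ f : ℤ × ℤ → ℚ, (A0.image f).card ≤ M →
        (perms fun i => f (w0.1 i).1) ≤ M ^ n := by
      intro f hf
      unfold perms
      have h4 : (univ : Finset (Equiv.Perm (Fin n))).image
          (fun σ => fun i => f (w0.1 (σ i)).1) ⊆ Fintype.piFinset fun _ : Fin n => A0.image f := by
        intro v hv
        obtain ⟨σ, -, rfl⟩ := mem_image.1 hv
        rw [Fintype.mem_piFinset]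
        intro i
        exact mem_image_of_mem _ (hAA (w0.1 (σ i)).2)
      refine (card_le_card h4).trans ?_
      rw [Fintype.card_piFinset, prod_const, card_univ, Fintype.card_fin]
      exact Nat.pow_le_pow_left hf n
    refine max_le ?_ (Finset.sup_le fun r hr => ?_)
    · exact key (fun p => (p.2 : ℚ)) (le_max_left _ _)
    · exact key (fun p => (p.1 : ℚ) + r * (p.2 : ℚ))
        ((le_sup (f := fun r => (proj r A0).card) hr).trans (le_max_right _ _))
  have h4 : (Fintype.card (TC (α := {x // x ∈ A}) n τ) : ℝ) ≤ ((M : ℝ) ^ κ) ^ n := by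
    calc (Fintype.card (TC (α := {x // x ∈ A}) n τ) : ℝ) ≤
          (perms (fun i => ((((w0.1 i).1).1 : ℤ) : ℚ) - (((w0.1 i).1).2 : ℤ)) : ℝ) := by
            exact_mod_cast h2
      _ ≤ _ := h1
      _ ≤ ((M ^ n : ℕ) : ℝ) ^ κ :=
          Real.rpow_le_rpow (Nat.cast_nonneg _) (by exact_mod_cast h3) hκ
      _ = _ := by
          push_cast
          rw [← Real.rpow_natCast, ← Real.rpow_natCast, ← Real.rpow_mul (Nat.cast_nonneg _),
            ← Real.rpow_mul (Nat.cast_nonneg _), mul_comm]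
  have h5 : (N : ℝ) ^ n ≤ ((n : ℝ) + 1) ^ N * Fintype.card (TC (α := {x // x ∈ A}) n τ) := by
    exact_mod_cast hτ
  rw [hρ, div_pow, lt_div_iff₀ (by positivity), one_mul] at hn
  have h6 : ((n : ℝ) + 1) ^ N * Fintype.card (TC (α := {x // x ∈ A}) n τ) ≤
      ((n : ℝ) + 1) ^ N * ((M : ℝ) ^ κ) ^ n := mul_le_mul_of_nonneg_left h4 (by positivity)
  linarith

theorem bound_iff_mult {S : Finset ℚ} {κ : ℝ} (hκ : 0 ≤ κ) (h0 : (-1 : ℚ) ∉ S) :
    Bound S κ ↔ MultBound S κ :=
  ⟨mult_of_bound hκ h0, bound_of_mult hκ⟩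

end Pool.Agent.V7H22.AK
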