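import Mathlib
import Pool.Agent.V7H22.AK.Mult
import Pool.Agent.V7H22.AK.Prog

/-! # The multinomial form of the mean inequality -/

set_option autoImplicit false

namespace Pool.Agent.V7H22.AK

open Finset

/-- the mean inequality for the numbers of rearrangements -/
def MultMean (κ : ℝ) (K : ℕ) : Prop :=
  ∀ (N : ℕ) (Y D : Fin N → ℤ), (perms (fun i => (D i : ℚ)) : ℝ) ^ K ≤
    ((∏ b ∈ range K, perms (fun i => (Y i : ℚ) + b * D i) : ℕ) : ℝ) ^ κ

theorem multMean_of_mean {κ : ℝ} {K : ℕ}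
    (h : ∀ A : Finset (ℤ × ℤ), ((A.image df).card : ℝ) ^ K ≤
      ((∏ b ∈ range K, (pu (b : ℚ) A).card : ℕ) : ℝ) ^ κ) : MultMean κ K := by
  classical
  intro N Y D
  obtain ⟨Φ, h1, h2⟩ := realise (Ω := Equiv.Perm (Fin N)) (ι := Fin N)
    (fun σ i => (Y (σ i) : ℚ)) (fun σ i => (D (σ i) : ℚ))
    ((range K).image fun b : ℕ => (b : ℚ))
  set B : Finset (ℤ × ℤ) := univ.image Φ with hB
  have hd : (B.image df).card = perms (fun i => (D i : ℚ)) := by
    rw [hB, image_image]
    exact card_image_congr univ _ _ fun p _ q _ => h2 p q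
  have hu : ∀ b ∈ range K, (pu (b : ℚ) B).card = perms (fun i => (Y i : ℚ) + b * D i) := by
    intro b hb
    unfold pu
    rw [hB, image_image]
    exact card_image_congr univ _ _ fun p _ q _ =>
      h1 (b : ℚ) (mem_image_of_mem (fun b : ℕ => (b : ℚ)) hb) p q
  have h3 := h B
  rw [hd, prod_congr rfl hu] at h3
  exact h3

theorem attained_of_multMean {κ : ℝ} (hκ : 0 ≤ κ) {K : ℕ} (hK : 1 ≤ K) (h : MultMean κ K) :
    Attained κ := by
  classical
  set S : Finset ℚ := (range K).image fun b : ℕ => 1 / ((b : ℚ) + 1) - 1 with hS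
  have h0 : (-1 : ℚ) ∉ S := by
    rw [hS, mem_image]
    rintro ⟨b, -, hb⟩
    have h1 : (0 : ℚ) < 1 / ((b : ℚ) + 1) := by positivity
    linarith
  refine ⟨S, h0, bound_of_mult hκ fun N X Y => ?_⟩
  set m : ℕ := max (perms fun i => (Y i : ℚ)) (S.sup fun r => perms fun i => (X i : ℚ) + r * Y i)
    with hm
  have h1 := h N Y (fun i => X i - Y i)
  have e1 : perms (fun i => (((X i - Y i : ℤ)) : ℚ)) = perms (fun i => (X i : ℚ) - Y i) := by
    congr 1
    funext i
    push_cast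
    ring
  rw [e1] at h1
  have h2 : ∀ b ∈ range K, perms (fun i => (Y i : ℚ) + b * ((X i - Y i : ℤ) : ℚ)) ≤ m := by
    intro b hb
    rcases Nat.eq_zero_or_pos b with rfl | hb0
    · have : (fun i => (Y i : ℚ) + ((0 : ℕ) : ℚ) * ((X i - Y i : ℤ) : ℚ)) =
          fun i => (Y i : ℚ) := by
        funext i
        rw [Nat.cast_zero, zero_mul, add_zero]
      rw [this]
      exact le_max_left _ _
    · have hmem : 1 / (((b - 1 : ℕ) : ℚ) + 1) - 1 ∈ S := by
        rw [hS]
        exact mem_image_of_mem (fun b : ℕ => 1 / ((b : ℚ) + 1) - 1)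
          (mem_range.2 (by have := mem_range.1 hb; omega))
      have hb1 : ((b - 1 : ℕ) : ℚ) + 1 = b := by
        rw [Nat.cast_sub hb0]
        push_cast
        ring
      rw [hb1] at hmem
      have hbq : (b : ℚ) ≠ 0 := by exact_mod_cast hb0.ne'
      refine le_trans (le_of_eq ?_) ((le_sup (f := fun r => perms fun i => (X i : ℚ) + r * Y i)
        hmem).trans (le_max_right _ _))
      unfold perms
      refine card_image_congr univ _ _ fun p _ q _ => ?_
      rw [funext_iff, funext_iff]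
      refine forall_congr' fun i => ?_
      have e : ∀ j : Fin N, (Y j : ℚ) + b * ((X j - Y j : ℤ) : ℚ) =
          b * ((X j : ℚ) + (1 / (b : ℚ) - 1) * Y j) := by
        intro j
        push_cast
        field_simp
        ring
      change ((Y (p i) : ℚ) + b * ((X (p i) - Y (p i) : ℤ) : ℚ) =
        (Y (q i) : ℚ) + b * ((X (q i) - Y (q i) : ℤ) : ℚ)) ↔
        ((X (p i) : ℚ) + (1 / (b : ℚ) - 1) * Y (p i) = (X (q i) : ℚ) + (1 / (b : ℚ) - 1) * Y (q i))
      rw [e, e]
      exact ⟨fun h => mul_left_cancel₀ hbq h, fun h => by rw [h]⟩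
  have h3 : ∏ b ∈ range K, perms (fun i => (Y i : ℚ) + b * ((X i - Y i : ℤ) : ℚ)) ≤ m ^ K := by
    calc ∏ b ∈ range K, perms (fun i => (Y i : ℚ) + b * ((X i - Y i : ℤ) : ℚ)) ≤
          ∏ _b ∈ range K, m := prod_le_prod' h2
      _ = _ := by rw [prod_const, card_range]
  have h4 : (perms (fun i => (X i : ℚ) - Y i) : ℝ) ^ K ≤ ((m : ℝ) ^ κ) ^ K := by
    refine h1.trans ?_
    calc ((∏ b ∈ range K, perms (fun i => (Y i : ℚ) + b * ((X i - Y i : ℤ) : ℚ)) : ℕ) : ℝ) ^ κ ≤
          ((m ^ K : ℕ) : ℝ) ^ κ :=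
          Real.rpow_le_rpow (Nat.cast_nonneg _) (by exact_mod_cast h3) hκ
      _ = _ := by
          push_cast
          rw [← Real.rpow_natCast, ← Real.rpow_natCast, ← Real.rpow_mul (Nat.cast_nonneg _),
            ← Real.rpow_mul (Nat.cast_nonneg _), mul_comm]
  exact le_of_pow_le_pow_left₀ (by omega) (Real.rpow_nonneg (Nat.cast_nonneg _) _) h4

end Pool.Agent.V7H22.AK
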